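import Pool.Agent.H52.C7Letter

set_option autoImplicit false

namespace Pool.Agent.H52.Ent

open Finset
open Pool.Agent.H52.Letter (C2 c_low)

lemma C2_gt : 1 ≤ C2 := by
  have h := c_low
  unfold C2
  rw [le_div_iff₀ (by linarith)]
  linarith

/-- deficiency -/
noncomputable def df {n : ℕ} (A : Finset (Fin n → ZMod 7)) : ℝ := n * Real.log C2 - Real.log A.card

/-- proportion of the elements of A with letters z at the coordinates i -/
noncomputable def pr {n k : ℕ} (A : Finset (Fin n → ZMod 7)) (i : Fin k → Fin n)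
    (z : Fin k → ZMod 7) : ℝ :=
  ((A.filter (fun a => ∀ l, a (i l) = z l)).card : ℝ) / (A.card : ℝ)

/-- proportion of the elements of A with letter y at the coordinate j -/
noncomputable def p1 {n : ℕ} (A : Finset (Fin n → ZMod 7)) (j : Fin n) (y : ZMod 7) : ℝ :=
  ((A.filter (fun a => a j = y)).card : ℝ) / (A.card : ℝ)

/-- relative entropy of the law at the tuple i -/
noncomputable def kl {n k : ℕ} (A : Finset (Fin n → ZMod 7)) (i : Fin k → Fin n) : ℝ :=
  ∑ z : Fin k → ZMod 7, pr A i z * Real.log (7 ^ k * pr A i z)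

lemma pr_nonneg {n k : ℕ} (A : Finset (Fin n → ZMod 7)) (i : Fin k → Fin n)
    (z : Fin k → ZMod 7) : 0 ≤ pr A i z := by unfold pr; positivity

lemma p1_nonneg {n : ℕ} (A : Finset (Fin n → ZMod 7)) (j : Fin n) (y : ZMod 7) :
    0 ≤ p1 A j y := by unfold p1; positivity

lemma sum_pr {n k : ℕ} (A : Finset (Fin n → ZMod 7)) (hne : A.Nonempty) (i : Fin k → Fin n) :
    ∑ z, pr A i z = 1 := by
  classical
  have hN : (0:ℝ) < A.card := by exact_mod_cast hne.card_pos
  unfold pr
  rw [← Finset.sum_div, div_eq_one_iff_eq hN.ne']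
  have h1 : ∀ z : Fin k → ZMod 7, ((A.filter (fun a => ∀ l, a (i l) = z l)).card : ℝ)
      = ∑ a ∈ A, if (fun l => a (i l)) = z then 1 else 0 := by
    intro z
    rw [Finset.card_filter]
    push_cast
    refine Finset.sum_congr rfl fun a _ => ?_
    simp only [funext_iff]
  simp only [h1]
  rw [Finset.sum_comm]
  simp

lemma sum_p1 {n : ℕ} (A : Finset (Fin n → ZMod 7)) (hne : A.Nonempty) (j : Fin n) :
    ∑ y, p1 A j y = 1 := by
  classical
  have hN : (0:ℝ) < A.card := by exact_mod_cast hne.card_pos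
  unfold p1
  rw [← Finset.sum_div, div_eq_one_iff_eq hN.ne']
  have h1 : ∀ y : ZMod 7, ((A.filter (fun a => a j = y)).card : ℝ)
      = ∑ a ∈ A, if a j = y then 1 else 0 := by
    intro y
    rw [Finset.card_filter]
    push_cast
    rfl
  simp only [h1]
  rw [Finset.sum_comm]
  simp

/-- The letter bound in logarithmic form. -/
lemma letter {n : ℕ} (A : Finset (Fin n → ZMod 7)) (hne : A.Nonempty)
    (hA : ∀ a ∈ A, ∀ b ∈ A,
      (∀ i, a i - b i = -1 ∨ a i - b i = 0 ∨ a i - b i = 1) → a = b) (y : ZMod 7) :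
    ∑ j, (p1 A j y - 1/7)^2 ≤ 10 * df A := by
  have hN : (0:ℝ) < A.card := by exact_mod_cast hne.card_pos
  have hC1 := C2_gt
  have hC : 0 < C2 := by linarith
  have h := Pool.Agent.H52.Letter.main n A hne hA (fun _ => y)
  have h1 := Real.log_le_log hN h
  rw [Real.log_mul (by positivity) (Real.exp_pos _).ne', Real.log_exp, Real.log_pow] at h1
  have h2 : ∀ j, Pool.Agent.H52.Letter.freq A j y = p1 A j y := fun j => rfl
  simp only [h2] at h1
  unfold df
  linarith

lemma df_nonneg {n : ℕ} (A : Finset (Fin n → ZMod 7)) (hne : A.Nonempty)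
    (hA : ∀ a ∈ A, ∀ b ∈ A,
      (∀ i, a i - b i = -1 ∨ a i - b i = 0 ∨ a i - b i = 1) → a = b) : 0 ≤ df A := by
  have h := letter A hne hA 0
  have h2 : 0 ≤ ∑ j, (p1 A j 0 - 1/7)^2 := Finset.sum_nonneg fun _ _ => sq_nonneg _
  linarith

lemma log_le (p : ℝ) (hp : 0 ≤ p) : p * Real.log (7 * p) ≤ 7 * (p - 1/7)^2 + (p - 1/7) := by
  rcases hp.eq_or_lt with h | h
  · rw [← h]; norm_num
  · have h1 := Real.log_le_sub_one_of_pos (show 0 < 7 * p by positivity)
    have h2 := mul_le_mul_of_nonneg_left h1 hp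
    refine h2.trans (le_of_eq ?_)
    ring

/-- The one-coordinate entropy bound. -/
lemma one {n : ℕ} (A : Finset (Fin n → ZMod 7)) (hne : A.Nonempty)
    (hA : ∀ a ∈ A, ∀ b ∈ A,
      (∀ i, a i - b i = -1 ∨ a i - b i = 0 ∨ a i - b i = 1) → a = b) :
    ∑ j, ∑ y, p1 A j y * Real.log (7 * p1 A j y) ≤ 490 * df A := by
  have h1 : ∀ j, ∑ y, p1 A j y * Real.log (7 * p1 A j y) ≤ ∑ y, 7 * (p1 A j y - 1/7)^2 := by
    intro j
    refine (Finset.sum_le_sum fun y _ => log_le _ (p1_nonneg A j y)).trans ?_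
    rw [Finset.sum_add_distrib, Finset.sum_sub_distrib, sum_p1 A hne j]
    simp only [Finset.sum_const, Finset.card_univ, ZMod.card, nsmul_eq_mul]
    norm_num
  refine (Finset.sum_le_sum fun j _ => h1 j).trans ?_
  rw [Finset.sum_comm]
  have h2 : ∀ y, ∑ j, 7 * (p1 A j y - 1/7)^2 ≤ 70 * df A := by
    intro y
    rw [← Finset.mul_sum]
    have := letter A hne hA y
    linarith
  refine (Finset.sum_le_sum fun y _ => h2 y).trans (le_of_eq ?_)
  simp only [Finset.sum_const, Finset.card_univ, ZMod.card, nsmul_eq_mul]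
  ring

lemma pr_cons {n k : ℕ} (A : Finset (Fin n → ZMod 7)) (i : Fin k → Fin n)
    (z : Fin k → ZMod 7) (j : Fin n) (y : ZMod 7) :
    pr A (Fin.cons j i) (Fin.cons y z)
      = pr A i z * p1 (A.filter (fun a => ∀ l, a (i l) = z l)) j y := by
  classical
  unfold pr p1
  have h1 : A.filter (fun a => ∀ l, a ((Fin.cons j i : Fin (k+1) → Fin n) l)
      = (Fin.cons y z : Fin (k+1) → ZMod 7) l)
      = (A.filter (fun a => ∀ l, a (i l) = z l)).filter (fun a => a j = y) := by
    ext a
    simp only [Finset.mem_filter, Fin.forall_fin_succ, Fin.cons_zero, Fin.cons_succ]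
    tauto
  rw [h1]
  rcases (A.filter (fun a => ∀ l, a (i l) = z l)).eq_empty_or_nonempty with he | hne
  · rw [he]; simp
  · have hM : (0:ℝ) < (A.filter (fun a => ∀ l, a (i l) = z l)).card := by
      exact_mod_cast hne.card_pos
    field_simp

lemma sum_cons {X : Type*} [Fintype X] {k : ℕ} (f : (Fin (k+1) → X) → ℝ) :
    ∑ i : Fin (k+1) → X, f i = ∑ i : Fin k → X, ∑ j : X, f (Fin.cons j i) := by
  rw [← (Fin.consEquiv (fun _ => X)).sum_comp, Fintype.sum_prod_type_right]
  rfl

/-- Chain rule. -/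
lemma chain {n k : ℕ} (A : Finset (Fin n → ZMod 7)) (i : Fin k → Fin n) (j : Fin n) :
    kl A (Fin.cons j i) = kl A i + ∑ z, pr A i z *
      ∑ y, p1 (A.filter (fun a => ∀ l, a (i l) = z l)) j y
        * Real.log (7 * p1 (A.filter (fun a => ∀ l, a (i l) = z l)) j y) := by
  classical
  unfold kl
  rw [sum_cons, ← Finset.sum_add_distrib]
  refine Finset.sum_congr rfl fun z _ => ?_
  simp only [pr_cons]
  set B := A.filter (fun a => ∀ l, a (i l) = z l) with hB
  rcases (pr_nonneg A i z).eq_or_lt with h0 | hp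
  · rw [← h0]; simp
  · have hBne : B.Nonempty := by
      rw [Finset.nonempty_iff_ne_empty]
      intro he
      have : pr A i z = 0 := by
        unfold pr
        rw [← hB, he]; simp
      linarith
    have h1 : ∀ y, pr A i z * p1 B j y * Real.log (7 ^ (k+1) * (pr A i z * p1 B j y))
        = pr A i z * Real.log (7 ^ k * pr A i z) * p1 B j y
          + pr A i z * (p1 B j y * Real.log (7 * p1 B j y)) := by
      intro y
      rcases (p1_nonneg B j y).eq_or_lt with h0 | hq
      · rw [← h0]; simp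
      · have e1 : (7:ℝ) ^ (k+1) * (pr A i z * p1 B j y)
            = (7 ^ k * pr A i z) * (7 * p1 B j y) := by ring
        rw [e1, Real.log_mul (by positivity) (by positivity)]
        ring
    simp only [h1]
    rw [Finset.sum_add_distrib, ← Finset.mul_sum, ← Finset.mul_sum, sum_p1 B hBne j, mul_one]

lemma ent_le {n k : ℕ} (A : Finset (Fin n → ZMod 7)) (hne : A.Nonempty) (i : Fin k → Fin n) :
    - ∑ z, pr A i z * Real.log (pr A i z) ≤ k * Real.log 7 := by
  classical
  have h1 : ∀ z, -(pr A i z * Real.log (pr A i z)) ≤ pr A i z * (k * Real.log 7)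
      + (1 / 7 ^ k - pr A i z) := by
    intro z
    rcases (pr_nonneg A i z).eq_or_lt with h0 | hp
    · rw [← h0]
      simp
    · have h2 := Real.log_le_sub_one_of_pos (show 0 < 1 / (7 ^ k * pr A i z) by positivity)
      rw [one_div, Real.log_inv, Real.log_mul (by positivity) hp.ne', Real.log_pow] at h2
      have h3 := mul_le_mul_of_nonneg_left h2 hp.le
      have h4 : pr A i z * ((7 ^ k * pr A i z)⁻¹ - 1) = 1 / 7 ^ k - pr A i z := by
        field_simp
      rw [h4] at h3
      linarith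
  rw [← Finset.sum_neg_distrib]
  refine (Finset.sum_le_sum fun z _ => h1 z).trans (le_of_eq ?_)
  rw [Finset.sum_add_distrib, Finset.sum_sub_distrib, ← Finset.sum_mul, sum_pr A hne i]
  simp only [Finset.sum_const, Finset.card_univ, ZMod.card, nsmul_eq_mul, Fintype.card_fun,
    Fintype.card_fin]
  push_cast
  field_simp
  ring

lemma stepE {n k : ℕ} (A : Finset (Fin n → ZMod 7)) (hne : A.Nonempty)
    (hA : ∀ a ∈ A, ∀ b ∈ A,
      (∀ i, a i - b i = -1 ∨ a i - b i = 0 ∨ a i - b i = 1) → a = b) (i : Fin k → Fin n) :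
    ∑ j, kl A (Fin.cons j i) ≤ n * kl A i + 490 * (df A + k * Real.log 7) := by
  classical
  have hN : (0:ℝ) < A.card := by exact_mod_cast hne.card_pos
  simp only [chain]
  rw [Finset.sum_add_distrib, Finset.sum_const, Finset.card_univ, Fintype.card_fin, nsmul_eq_mul,
    Finset.sum_comm]
  have h1 : ∀ z, ∑ j, pr A i z * ∑ y, p1 (A.filter (fun a => ∀ l, a (i l) = z l)) j y
        * Real.log (7 * p1 (A.filter (fun a => ∀ l, a (i l) = z l)) j y)
      ≤ 490 * (pr A i z * df A - pr A i z * Real.log (pr A i z)) := by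
    intro z
    rw [← Finset.mul_sum]
    set B := A.filter (fun a => ∀ l, a (i l) = z l) with hB
    rcases (pr_nonneg A i z).eq_or_lt with h0 | hp
    · rw [← h0]; simp
    · have hBne : B.Nonempty := by
        rw [Finset.nonempty_iff_ne_empty]
        intro he
        have : pr A i z = 0 := by
          unfold pr
          rw [← hB, he]; simp
        linarith
      have hM : (0:ℝ) < B.card := by exact_mod_cast hBne.card_pos
      have hBA : B ⊆ A := Finset.filter_subset _ _
      have h2 := one B hBne (fun a ha b hb => hA a (hBA ha) b (hBA hb))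
      have h3 : df B = df A - Real.log (pr A i z) := by
        unfold df pr
        rw [← hB, Real.log_div hM.ne' hN.ne']
        ring
      rw [h3] at h2
      have h4 := mul_le_mul_of_nonneg_left h2 hp.le
      refine h4.trans (le_of_eq ?_)
      ring
  have h5 := Finset.sum_le_sum fun z (_ : z ∈ (Finset.univ : Finset (Fin k → ZMod 7))) => h1 z
  rw [← Finset.mul_sum, Finset.sum_sub_distrib, ← Finset.sum_mul, sum_pr A hne i, one_mul] at h5
  have h6 := ent_le A hne i
  linarith

/-- The sum over all tuples. -/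
lemma total {n : ℕ} (A : Finset (Fin n → ZMod 7)) (hne : A.Nonempty)
    (hA : ∀ a ∈ A, ∀ b ∈ A,
      (∀ i, a i - b i = -1 ∨ a i - b i = 0 ∨ a i - b i = 1) → a = b) (k : ℕ) :
    (n : ℝ) * ∑ i : Fin k → Fin n, kl A i
      ≤ 490 * n ^ k * (k * df A + k * (k - 1) / 2 * Real.log 7) := by
  classical
  have hN : (0:ℝ) < A.card := by exact_mod_cast hne.card_pos
  induction k with
  | zero =>
    have h1 : ∀ i : Fin 0 → Fin n, kl A i = 0 := by
      intro i
      unfold kl pr
      simp [hN.ne']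
    simp [h1]
  | succ k ih =>
    rw [sum_cons]
    have h1 := Finset.sum_le_sum fun i (_ : i ∈ (Finset.univ : Finset (Fin k → Fin n))) =>
      stepE A hne hA i
    rw [Finset.sum_add_distrib, Finset.sum_const, Finset.card_univ, Fintype.card_fun,
      Fintype.card_fin, Fintype.card_fin, nsmul_eq_mul, ← Finset.mul_sum] at h1
    push_cast at h1 ⊢
    have h2 := mul_le_mul_of_nonneg_left h1 (Nat.cast_nonneg n : (0:ℝ) ≤ n)
    have h3 := mul_le_mul_of_nonneg_left ih (Nat.cast_nonneg n : (0:ℝ) ≤ n)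
    refine h2.trans ?_
    rw [mul_add]
    have h4 : (n:ℝ) * (490 * n ^ k * (k * df A + k * (k - 1) / 2 * Real.log 7))
        + n * (n ^ k * (490 * (df A + k * Real.log 7)))
        = 490 * n ^ (k+1) * ((k+1) * df A + (k+1) * (k + 1 - 1) / 2 * Real.log 7) := by ring
    rw [← h4]
    linarith

theorem main (k n : ℕ) (hk : 1 ≤ k) (A : Finset (Fin n → ZMod 7))
    (hne : A.Nonempty)
    (hA : ∀ a ∈ A, ∀ b ∈ A,
      (∀ i, a i - b i = -1 ∨ a i - b i = 0 ∨ a i - b i = 1) → a = b) :
    (A.card : ℝ) ≤ 7 ^ (((k : ℝ) - 1) / 2) * C2 ^ n * Real.exp (-(n / (490 * k)) *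
      ((∑ i : Fin k → Fin n, kl A i) / n ^ k)) := by
  have hD := df_nonneg A hne hA
  have hT := total A hne hA k
  have hNpos : (0:ℝ) < A.card := by exact_mod_cast hne.card_pos
  have hk' : (1:ℝ) ≤ k := by exact_mod_cast hk
  have hC1 := C2_gt
  have hC : 0 < C2 := by linarith
  have hl7 : 0 ≤ Real.log 7 := Real.log_nonneg (by norm_num)
  set S : ℝ := ∑ i : Fin k → Fin n, kl A i with hS
  have h4 : (n : ℝ) / (490 * k) * (S / n ^ k) ≤ df A + (k - 1) / 2 * Real.log 7 := by
    rcases Nat.eq_zero_or_pos n with h0 | hn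
    · have h00 : (n : ℝ) = 0 := by exact_mod_cast h0
      rw [h00]
      simp only [zero_div, zero_mul]
      have : 0 ≤ ((k:ℝ) - 1) / 2 * Real.log 7 := mul_nonneg (by linarith) hl7
      linarith
    · have hn' : (0:ℝ) < n := by exact_mod_cast hn
      have h5 : (n : ℝ) / (490 * k) * (S / n ^ k) = (n * S) / (490 * k * n ^ k) := by
        field_simp
      rw [h5, div_le_iff₀ (by positivity)]
      refine hT.trans (le_of_eq ?_)
      ring
  have h5 : Real.log A.card ≤ (k - 1) / 2 * Real.log 7 + n * Real.log C2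
      + -(n / (490 * k)) * (S / n ^ k) := by
    unfold df at h4
    linarith
  rw [← Real.exp_log hNpos]
  refine (Real.exp_le_exp.2 h5).trans (le_of_eq ?_)
  rw [Real.exp_add, Real.exp_add, ← Real.rpow_natCast C2 n, Real.rpow_def_of_pos hC,
    Real.rpow_def_of_pos (by norm_num : (0:ℝ) < 7), mul_comm (Real.log C2),
    mul_comm (Real.log 7)]

end Pool.Agent.H52.Ent
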