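import Mathlib

set_option autoImplicit false

namespace Pool.Agent.H52.C7

/-- a bounded coefficient times a power of a small number -/
lemma small (r e B : ℝ) (k : ℕ) (hr : |r| ≤ B) (he : |e| ≤ 1/4) : -(B * (1/4)^k) ≤ r * e^k := by
  have h1 : |r * e^k| ≤ B * (1/4)^k := by
    rw [abs_mul, abs_pow]
    exact mul_le_mul hr (pow_le_pow_left₀ (abs_nonneg _) he k) (by positivity)
      (le_trans (abs_nonneg _) hr)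
  exact (abs_le.1 h1).1

lemma D2_pos (c e : ℝ) (hc : 8*c^3 - 4*c^2 - 4*c + 1 = 0) (h1 : 9009/10000 ≤ c)
    (h2 : c ≤ 901/1000) (he : |e| ≤ 1/4) : 0 < 1 - 2*(-4*c^2+2*c+2 - e^2/2 + e*(2*c^2-c-1/2))^2 := by
  have l2 : 8116/10000 ≤ c^2 := by nlinarith
  have u2 : c^2 ≤ 8119/10000 := by nlinarith
  have e2 : 0 ≤ e^2 := sq_nonneg e
  have key : 1 - 2*(-4*c^2+2*c+2 - e^2/2 + e*(2*c^2-c-1/2))^2 = ((-9) + (-4) * c ^ 1 + (16) * c ^ 2) + ((6) + (-8) * c ^ 2) * e ^ 1 + ((3) + (5) * c ^ 1 + (-8) * c ^ 2) * e ^ 2 + ((-1) + (-2) * c ^ 1 + (4) * c ^ 2) * e ^ 3 + ((-1/2)) * e ^ 4 := by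
    linear_combination (((2) + (-4) * c ^ 1) + ((-2) + (4) * c ^ 1) * e ^ 1 + ((1/2) + (-1) * c ^ 1) * e ^ 2) * hc
  rw [key]
  have s1 := small (6 + (-8) * c^2) e (51/100) 1 (by rw [abs_le]; constructor <;> linarith) he
  have s3 := small ((-1) + (-2) * c^1 + 4 * c^2) e (46/100) 3 (by rw [abs_le]; constructor <;> linarith) he
  have s4 := small (-1/2) e (1/2) 4 (by norm_num [abs_le]) he
  have s2 : 0 ≤ (3 + 5 * c^1 + (-8) * c^2) * e^2 := mul_nonneg (by linarith) e2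
  norm_num at s1 s2 s3 s4 ⊢
  linarith
lemma D3_pos (c e : ℝ) (hc : 8*c^3 - 4*c^2 - 4*c + 1 = 0) (h1 : 9009/10000 ≤ c)
    (h2 : c ≤ 901/1000) (he : |e| ≤ 1/4) : 0 < 1 - 2*(-4*c^2+2*c+2 - e^2/2 + e*(2*c^2-c-1/2))^2 - (-4*c^2+2*c+2 - e^2/2 + e*(1-2*c^2))^2 := by
  have l2 : 8116/10000 ≤ c^2 := by nlinarith
  have u2 : c^2 ≤ 8119/10000 := by nlinarith
  have e2 : 0 ≤ e^2 := sq_nonneg e
  have key : 1 - 2*(-4*c^2+2*c+2 - e^2/2 + e*(2*c^2-c-1/2))^2 - (-4*c^2+2*c+2 - e^2/2 + e*(1-2*c^2))^2 = ((-14) + (-6) * c ^ 1 + (24) * c ^ 2) + ((2) + (-2) * c ^ 1) * e ^ 1 + ((17/4) + (13/2) * c ^ 1 + (-11) * c ^ 2) * e ^ 2 + ((-2) * c ^ 1 + (2) * c ^ 2) * e ^ 3 + ((-3/4)) * e ^ 4 := by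
    linear_combination (((3) + (-6) * c ^ 1) + ((-2) + (2) * c ^ 1) * e ^ 1 + ((1/4) + (-3/2) * c ^ 1) * e ^ 2) * hc
  rw [key]
  have s1 : -(1/5 * |e|) ≤ (2 + (-2) * c^1) * e^1 := by
    have h3 : |(2 + (-2) * c^1) * e^1| ≤ 1/5 * |e| := by
      have h4 : |2 + (-2) * c^1| ≤ 1/5 := by rw [abs_le]; constructor <;> linarith
      rw [abs_mul, pow_one e]
      exact mul_le_mul_of_nonneg_right h4 (abs_nonneg _)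
    exact (abs_le.1 h3).1
  have s3 := small ((-2) * c^1 + 2 * c^2) e (19/100) 3 (by rw [abs_le]; constructor <;> linarith) he
  have s4 := small (-3/4) e (3/4) 4 (by norm_num [abs_le]) he
  have s2 : 117/100 * |e|^2 ≤ (17/4 + 13/2 * c^1 + (-11) * c^2) * e^2 := by
    rw [sq_abs]; exact mul_le_mul_of_nonneg_right (by linarith) e2
  norm_num at s1 s2 s3 s4 ⊢
  nlinarith [sq_nonneg (|e| - 1/12)]
lemma D4_nonneg (c e : ℝ) (hc : 8*c^3 - 4*c^2 - 4*c + 1 = 0) (h1 : 9009/10000 ≤ c)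
    (h2 : c ≤ 901/1000) (he : |e| ≤ 1/4) : 0 ≤ (1+(-4*c^2+2*c+2 - e^2/2 - e))*(1 - 2*(-4*c^2+2*c+2 - e^2/2 + e*(2*c^2-c-1/2))^2 - (-4*c^2+2*c+2 - e^2/2 + e*(1-2*c^2))^2) - (-4*c^2+2*c+2 - e^2/2 + e*c)^2*(1 - 2*(-4*c^2+2*c+2 - e^2/2 + e*(2*c^2-c-1/2))^2) := by
  have l2 : 8116/10000 ≤ c^2 := by nlinarith
  have u2 : c^2 ≤ 8119/10000 := by nlinarith
  have e2 : 0 ≤ e^2 := sq_nonneg e
  have key : (1+(-4*c^2+2*c+2 - e^2/2 - e))*(1 - 2*(-4*c^2+2*c+2 - e^2/2 + e*(2*c^2-c-1/2))^2 - (-4*c^2+2*c+2 - e^2/2 + e*(1-2*c^2))^2) - (-4*c^2+2*c+2 - e^2/2 + e*c)^2*(1 - 2*(-4*c^2+2*c+2 - e^2/2 + e*(2*c^2-c-1/2))^2) = ((-45/2) + (-13/2) * c ^ 1 + (37) * c ^ 2) * e ^ 2 + ((25/4) + (1/2) * c ^ 1 + (-11) * c ^ 2) * e ^ 3 + ((11) + (15/4) * c ^ 1 + (-21) * c ^ 2) * e ^ 4 + ((-9/4) + (1/2) * c ^ 1 + (5) * c ^ 2) * e ^ 5 + ((-15/8)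 + (-5/4) * c ^ 1 + (9/2) * c ^ 2) * e ^ 6 + ((1/4) + (-1) * c ^ 2) * e ^ 7 + ((1/8)) * e ^ 8 := by
    linear_combination (((-5) + (6) * c ^ 1 + (56) * c ^ 2 + (-24) * c ^ 3 + (-96) * c ^ 4 + (64) * c ^ 5) + ((-5) + (-24) * c ^ 1 + (-28) * c ^ 2 + (56) * c ^ 3 + (64) * c ^ 4 + (-64) * c ^ 5) * e ^ 1 + ((27/2) + (-25/2) * c ^ 1 + (-42) * c ^ 2 + (6) * c ^ 3 + (8) * c ^ 4 + (16) * c ^ 5) * e ^ 2 + ((5/4) + (35/2) * c ^ 1 + (16) * c ^ 2 + (-20) * c ^ 3 + (-8) * c ^ 4) * e ^ 3 + ((-19/4) + (11/4) * c ^ 1 + (7/2) * c ^ 2 + (5) * c ^ 3) * e ^ 4 + ((-3) * c ^ 1 + (-1) * c ^ 2) * e ^ 5 + ((3/8) + (1/4) * c ^ 1) * e ^ 6) * hc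
  rw [key]
  have s3 := small (25/4 + 1/2 * c^1 + (-11) * c^2) e (224/100) 1 (by rw [abs_le]; constructor <;> linarith) he
  have s4 := small (11 + 15/4 * c^1 + (-21) * c^2) e (268/100) 2 (by rw [abs_le]; constructor <;> linarith) he
  have s5 := small ((-9/4) + 1/2 * c^1 + 5 * c^2) e (227/100) 3 (by rw [abs_le]; constructor <;> linarith) he
  have s6 := small ((-15/8) + (-5/4) * c^1 + 9/2 * c^2) e (66/100) 4 (by rw [abs_le]; constructor <;> linarith) he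
  have s7 := small (1/4 + (-1) * c^2) e (57/100) 5 (by rw [abs_le]; constructor <;> linarith) he
  have s8 := small (1/8) e (1/8) 6 (by norm_num [abs_le]) he
  have hR : 0 ≤ ((-45/2) + (-13/2) * c^1 + 37 * c^2) + (25/4 + 1/2 * c^1 + (-11) * c^2) * e^1
      + (11 + 15/4 * c^1 + (-21) * c^2) * e^2 + ((-9/4) + 1/2 * c^1 + 5 * c^2) * e^3
      + ((-15/8) + (-5/4) * c^1 + 9/2 * c^2) * e^4 + (1/4 + (-1) * c^2) * e^5 + 1/8 * e^6 := by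
    norm_num at s3 s4 s5 s6 s7 s8 ⊢
    linarith
  have := mul_nonneg hR e2
  linarith
lemma O2_pos (c e : ℝ) (hc : 8*c^3 - 4*c^2 - 4*c + 1 = 0) (h1 : 9009/10000 ≤ c)
    (h2 : c ≤ 901/1000) (he : |e| ≤ 1/4) : 0 < 1 - (-4*c^2+2*c+2 - e^2/2 + e*(1-2*c^2))^2 := by
  have l2 : 8116/10000 ≤ c^2 := by nlinarith
  have u2 : c^2 ≤ 8119/10000 := by nlinarith
  have e2 : 0 ≤ e^2 := sq_nonneg e
  have key : 1 - (-4*c^2+2*c+2 - e^2/2 + e*(1-2*c^2))^2 = ((-4) + (-2) * c ^ 1 + (8) * c ^ 2) + ((-4) + (-2) * c ^ 1 + (8) * c ^ 2) * e ^ 1 + ((5/4) + (3/2) * c ^ 1 + (-3) * c ^ 2) * e ^ 2 + ((1) + (-2) * c ^ 2) * e ^ 3 + ((-1/4)) * e ^ 4 := by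
    linear_combination (((1) + (-2) * c ^ 1) + ((-2) * c ^ 1) * e ^ 1 + ((-1/4) + (-1/2) * c ^ 1) * e ^ 2) * hc
  rw [key]
  have s1 := small ((-4) + (-2) * c^1 + 8 * c^2) e (70/100) 1 (by rw [abs_le]; constructor <;> linarith) he
  have s2 := small (5/4 + 3/2 * c^1 + (-3) * c^2) e (17/100) 2 (by rw [abs_le]; constructor <;> linarith) he
  have s3 := small (1 + (-2) * c^2) e (63/100) 3 (by rw [abs_le]; constructor <;> linarith) he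
  have s4 := small (-1/4) e (1/4) 4 (by norm_num [abs_le]) he
  norm_num at s1 s2 s3 s4 ⊢
  linarith
lemma O3_nonneg (c e : ℝ) (hc : 8*c^3 - 4*c^2 - 4*c + 1 = 0) (h1 : 9009/10000 ≤ c)
    (h2 : c ≤ 901/1000) (he : |e| ≤ 1/4) : 0 ≤ (1-(-4*c^2+2*c+2 - e^2/2 - e))*(1 - (-4*c^2+2*c+2 - e^2/2 + e*(1-2*c^2))^2) - (-4*c^2+2*c+2 - e^2/2 + e*c)^2 := by
  have l2 : 8116/10000 ≤ c^2 := by nlinarith
  have u2 : c^2 ≤ 8119/10000 := by nlinarith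
  have e2 : 0 ≤ e^2 := sq_nonneg e
  have key : (1-(-4*c^2+2*c+2 - e^2/2 - e))*(1 - (-4*c^2+2*c+2 - e^2/2 + e*(1-2*c^2))^2) - (-4*c^2+2*c+2 - e^2/2 + e*c)^2 = ((-6) + (-1/2) * c ^ 1 + (9) * c ^ 2) * e ^ 2 + ((-7/4) + (1/2) * c ^ 1 + (3) * c ^ 2) * e ^ 3 + ((13/8) + (5/4) * c ^ 1 + (-9/2) * c ^ 2) * e ^ 4 + ((1/4) + (-1) * c ^ 2) * e ^ 5 + ((-1/8)) * e ^ 6 := by
    linear_combination (((-1) + (2) * c ^ 1 + (8) * c ^ 2 + (-8) * c ^ 3) + ((1) + (4) * c ^ 1 + (4) * c ^ 2 + (-8) * c ^ 3) * e ^ 1 + ((3/2) + (-7/2) * c ^ 1 + (-2) * c ^ 3) * e ^ 2 + ((-1/4) + (-5/2) * c ^ 1) * e ^ 3 + ((-1/8) + (-1/4) * c ^ 1) * e ^ 4) * hc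
  rw [key]
  have s1 := small ((-7/4) + 1/2 * c^1 + 3 * c^2) e (115/100) 1 (by rw [abs_le]; constructor <;> linarith) he
  have s2 := small (13/8 + 5/4 * c^1 + (-9/2) * c^2) e (91/100) 2 (by rw [abs_le]; constructor <;> linarith) he
  have s3 := small (1/4 + (-1) * c^2) e (57/100) 3 (by rw [abs_le]; constructor <;> linarith) he
  have s4 := small (-1/8) e (1/8) 4 (by norm_num [abs_le]) he
  have hR : 0 ≤ ((-6) + (-1/2) * c^1 + 9 * c^2) + ((-7/4) + 1/2 * c^1 + 3 * c^2) * e^1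
      + (13/8 + 5/4 * c^1 + (-9/2) * c^2) * e^2 + (1/4 + (-1) * c^2) * e^3 + (-1/8) * e^4 := by
    norm_num at s1 s2 s3 s4 ⊢
    linarith
  have := mul_nonneg hR e2
  linarith

/-- Tridiagonal forms. -/
lemma even_nonneg (g0 g1 g2 g3 a0 a1 a2 a3 : ℝ) (h2 : 0 < 1 - 2*g0^2)
    (h3 : 0 < 1 - 2*g0^2 - g1^2) (h4 : 0 ≤ (1+g3)*(1 - 2*g0^2 - g1^2) - g2^2*(1 - 2*g0^2)) :
    0 ≤ a0^2 + 2*(a1^2+a2^2+a3^2) + 4*g0*a0*a1 + 4*g1*a1*a2 + 4*g2*a2*a3 + 2*g3*a3^2 := by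
  set D2 := 1 - 2*g0^2 with hD2
  set D3 := 1 - 2*g0^2 - g1^2 with hD3
  have e3 : D3 = D2 - g1^2 := by rw [hD2, hD3]
  have key : a0^2 + 2*(a1^2+a2^2+a3^2) + 4*g0*a0*a1 + 4*g1*a1*a2 + 4*g2*a2*a3 + 2*g3*a3^2
      = (a0 + 2*g0*a1)^2 + 2*(D2*(a1 + g1*a2/D2)^2 + D3/D2*(a2 + g2*D2*a3/D3)^2
        + ((1+g3)*D3 - g2^2*D2)/D3*a3^2) := by
    have hg : g0^2 = (1 - D2)/2 := by rw [hD2]; ring
    have hg1 : g1^2 = D2 - D3 := by rw [e3]; ring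
    field_simp
    ring_nf
    rw [hg, hg1]
    ring
  rw [key]
  have p1 := mul_nonneg h2.le (sq_nonneg (a1 + g1*a2/D2))
  have p2 := mul_nonneg (div_nonneg h3.le h2.le) (sq_nonneg (a2 + g2*D2*a3/D3))
  have p3 := mul_nonneg (div_nonneg h4 h3.le) (sq_nonneg a3)
  nlinarith [sq_nonneg (a0 + 2*g0*a1)]

lemma odd_nonneg (g1 g2 g3 b1 b2 b3 : ℝ) (h2 : 0 < 1 - g1^2)
    (h3 : 0 ≤ (1-g3)*(1 - g1^2) - g2^2) :
    0 ≤ 2*(b1^2+b2^2+b3^2) + 4*g1*b1*b2 + 4*g2*b2*b3 - 2*g3*b3^2 := by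
  set O2 := 1 - g1^2 with hO2
  have key : 2*(b1^2+b2^2+b3^2) + 4*g1*b1*b2 + 4*g2*b2*b3 - 2*g3*b3^2
      = 2*((b1 + g1*b2)^2 + O2*(b2 + g2*b3/O2)^2 + ((1-g3)*O2 - g2^2)/O2*b3^2) := by
    have hg : g1^2 = 1 - O2 := by rw [hO2]; ring
    field_simp
    ring_nf
    rw [hg]
    ring
  rw [key]
  have p1 := mul_nonneg h2.le (sq_nonneg (b2 + g2*b3/O2))
  have p2 := mul_nonneg (div_nonneg h3 h2.le) (sq_nonneg b3)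
  nlinarith [sq_nonneg (b1 + g1*b2)]

/-- The cyclic form is nonnegative. -/
lemma cyc_nonneg (c e : ℝ) (hc : 8*c^3 - 4*c^2 - 4*c + 1 = 0) (h1 : 9009/10000 ≤ c)
    (h2 : c ≤ 901/1000) (he : |e| ≤ 1/4) (g0 g1 g2 g3 : ℝ)
    (hg0 : g0 = -4*c^2+2*c+2 - e^2/2 + e*(2*c^2-c-1/2))
    (hg1 : g1 = -4*c^2+2*c+2 - e^2/2 + e*(1-2*c^2))
    (hg2 : g2 = -4*c^2+2*c+2 - e^2/2 + e*c)
    (hg3 : g3 = -4*c^2+2*c+2 - e^2/2 - e) (x0 x1 x2 x3 x4 x5 x6 : ℝ) :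
    0 ≤ x0^2 + x1^2 + x2^2 + x3^2 + x4^2 + x5^2 + x6^2 + 2*(g0*x0*x1 + g1*x1*x2 + g2*x2*x3
      + g3*x3*x4 + g2*x4*x5 + g1*x5*x6 + g0*x6*x0) := by
  have a := even_nonneg g0 g1 g2 g3 x0 ((x1+x6)/2) ((x2+x5)/2) ((x3+x4)/2)
    (by rw [hg0]; exact D2_pos c e hc h1 h2 he) (by rw [hg0, hg1]; exact D3_pos c e hc h1 h2 he)
    (by rw [hg0, hg1, hg2, hg3]; exact D4_nonneg c e hc h1 h2 he)
  have b := odd_nonneg g1 g2 g3 ((x1-x6)/2) ((x2-x5)/2) ((x3-x4)/2)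
    (by rw [hg1]; exact O2_pos c e hc h1 h2 he)
    (by rw [hg1, hg2, hg3]; exact O3_nonneg c e hc h1 h2 he)
  linarith

end Pool.Agent.H52.C7
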