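import Pool.Agent.H52.C7Stab
import Pool.Agent.H52.C7Form

set_option autoImplicit false

namespace Pool.Agent.H52.Letter

open Finset
open Pool.Agent.H52.Stab (exp_le bessel tens block cubic X
  cos_sub_val X_vals cpos gram_id u u_gram f0 f0_u f0_f0 wt)

/-- The number C_2 of the problem (the Lovasz theta number of the 7-cycle). -/
noncomputable def C2 : ℝ := 7 * Real.cos (Real.pi / 7) / (1 + Real.cos (Real.pi / 7))

/-- The frequency of the letter y among the i-th coordinates of the elements of A. -/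
noncomputable def freq {n : ℕ} (A : Finset (Fin n → ZMod 7)) (i : Fin n) (y : ZMod 7) : ℝ :=
  ((A.filter (fun a => a i = y)).card : ℝ) / (A.card : ℝ)

lemma c_low : 9009/10000 ≤ Real.cos (Real.pi / 7) := by
  have h := cubic
  have h1 := cpos
  by_contra hcon
  push Not at hcon
  set c := Real.cos (Real.pi / 7)
  nlinarith [mul_pos (sub_pos.2 h1) (sub_pos.2 hcon), mul_pos (mul_pos (sub_pos.2 h1) (sub_pos.2 hcon)) (show (0:ℝ) < c by linarith)]

lemma c_high : Real.cos (Real.pi / 7) ≤ 901/1000 := by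
  have h := cubic
  by_contra hcon
  push Not at hcon
  set c := Real.cos (Real.pi / 7)
  nlinarith [mul_pos (sub_pos.2 hcon) (show (0:ℝ) < c by linarith), mul_pos (mul_pos (sub_pos.2 hcon) (show (0:ℝ) < c by linarith)) (show (0:ℝ) < c by linarith)]

/-- q is a vector of squared cosines of an orthonormal representation. -/
def IsRep (q : ZMod 7 → ℝ) : Prop :=
  ∃ (m : ℕ) (v : ZMod 7 → Fin m → ℝ) (h : Fin m → ℝ), (∀ x, ∑ k, v x k * v x k = 1) ∧
    (∀ x y, ¬ (x - y = -1 ∨ x - y = 0 ∨ x - y = 1) → ∑ k, v x k * v y k = 0) ∧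
    0 < ∑ k, h k * h k ∧ ∀ x, q x = (∑ k, h k * v x k) ^ 2 / ∑ k, h k * h k

lemma prod_le {n : ℕ} (A : Finset (Fin n → ZMod 7))
    (hA : ∀ a ∈ A, ∀ b ∈ A,
      (∀ i, a i - b i = -1 ∨ a i - b i = 0 ∨ a i - b i = 1) → a = b)
    (q : Fin n → ZMod 7 → ℝ) (hq : ∀ i, IsRep (q i)) : ∑ a ∈ A, ∏ i, q i (a i) ≤ 1 := by
  choose m v h hv ho hh hqq using hq
  have hB := bessel A (fun a (k : ∀ i, Fin (m i)) => ∏ i, v i (a i) (k i))
    (fun k => ∏ i, h i (k i)) (by
    intro a ha b hb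
    rw [tens (fun i => Fin (m i)) (fun i x => v i (a i) x) (fun i x => v i (b i) x)]
    split_ifs with hab
    · subst hab
      exact Finset.prod_eq_one fun i _ => hv i (a i)
    · have h1 : ∃ i, ¬ (a i - b i = -1 ∨ a i - b i = 0 ∨ a i - b i = 1) := by
        by_contra hcon
        exact hab (hA a ha b hb fun i => by
          by_contra hh
          exact hcon ⟨i, hh⟩)
      obtain ⟨i, hi⟩ := h1
      exact Finset.prod_eq_zero (Finset.mem_univ i) (ho i _ _ hi))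
  simp only [tens (fun i => Fin (m i)) (fun i x => h i x) (fun i x => h i x)] at hB
  have e : ∀ a : Fin n → ZMod 7, ∑ k : (∀ i, Fin (m i)), (∏ i, h i (k i)) * (∏ i, v i (a i) (k i))
      = ∏ i, ∑ x, h i x * v i (a i) x := fun a =>
    tens (fun i => Fin (m i)) (fun i x => h i x) (fun i x => v i (a i) x)
  simp only [e] at hB
  have hP : 0 < ∏ i, ∑ x, h i x * h i x := Finset.prod_pos fun i _ => hh i
  have : ∑ a ∈ A, ∏ i, q i (a i) = (∑ a ∈ A, (∏ i, ∑ x, h i x * v i (a i) x) ^ 2)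
      / ∏ i, ∑ x, h i x * h i x := by
    rw [Finset.sum_div]
    refine Finset.sum_congr rfl fun a _ => ?_
    rw [← Finset.prod_pow, ← Finset.prod_div_distrib]
    exact Finset.prod_congr rfl fun i _ => hqq i (a i)
  rw [this, div_le_one hP]
  exact hB

/-- The perturbed Gram matrix. -/
noncomputable def Gm (g0 g1 g2 g3 : ℝ) : Matrix (Fin 7) (Fin 7) ℝ :=
  !![1, g0, 0, 0, 0, 0, g0;
     g0, 1, g1, 0, 0, 0, 0;
     0, g1, 1, g2, 0, 0, 0;
     0, 0, g2, 1, g3, 0, 0;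
     0, 0, 0, g3, 1, g2, 0;
     0, 0, 0, 0, g2, 1, g1;
     g0, 0, 0, 0, 0, g1, 1]

open scoped MatrixOrder Matrix.Norms.L2Operator in
lemma gram_exists (g0 g1 g2 g3 : ℝ) (hpos : ∀ x0 x1 x2 x3 x4 x5 x6 : ℝ,
    0 ≤ x0^2 + x1^2 + x2^2 + x3^2 + x4^2 + x5^2 + x6^2 + 2*(g0*x0*x1 + g1*x1*x2 + g2*x2*x3
      + g3*x3*x4 + g2*x4*x5 + g1*x5*x6 + g0*x6*x0)) :
    ∃ v : Fin 7 → Fin 7 → ℝ, ∀ x y, ∑ k, v x k * v y k = Gm g0 g1 g2 g3 x y := by
  have hH : (Gm g0 g1 g2 g3).IsHermitian := by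
    ext i j
    fin_cases i <;> fin_cases j <;> simp [Gm, Matrix.conjTranspose]
  have hP : (Gm g0 g1 g2 g3).PosSemidef := by
    refine Matrix.PosSemidef.of_dotProduct_mulVec_nonneg hH fun x => ?_
    have := hpos (x 0) (x 1) (x 2) (x 3) (x 4) (x 5) (x 6)
    refine le_trans this (le_of_eq ?_)
    simp only [dotProduct, Matrix.mulVec, Fin.sum_univ_seven, Gm]
    simp
    ring
  obtain ⟨B, hB⟩ := CStarAlgebra.nonneg_iff_eq_star_mul_self.mp hP.nonneg
  refine ⟨fun x k => B k x, fun x y => ?_⟩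
  rw [hB]
  simp [Matrix.mul_apply, Matrix.star_eq_conjTranspose]

/-- cos(6 pi d / 7) for d in ZMod 7. -/
noncomputable def X3 (d : ZMod 7) : ℝ := 4 * X d ^ 3 - 3 * X d

lemma red : ∀ z : ZMod 7, z = 0 ∨ z = 1 ∨ z = 2 ∨ z = 3 ∨ z = 4 ∨ z = 5 ∨ z = 6 := by decide

lemma X3_vals (c : ℝ) (hc : c = Real.cos (Real.pi / 7)) : X3 0 = 1 ∧ X3 1 = -c ∧
    X3 2 = 2 * c ^ 2 - 1 ∧ X3 3 = c + 1/2 - 2 * c ^ 2 ∧ X3 4 = c + 1/2 - 2 * c ^ 2 ∧
    X3 5 = 2 * c ^ 2 - 1 ∧ X3 6 = -c := by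
  obtain ⟨x0, x1, x2, x3, x4, x5, x6⟩ := X_vals
  have h := cubic
  rw [← hc] at x1 x2 x3 x4 x5 x6 h
  have hx2 : 2 * (2 * c ^ 2 - 1) ^ 2 - 1 = c + 1/2 - 2 * c ^ 2 := by
    linear_combination (c + 1/2) * h
  unfold X3
  rw [x0, x1, x2, x3, x4, x5, x6, hx2]
  refine ⟨by norm_num, ?_, ?_, ?_, ?_, ?_, ?_⟩
  · linear_combination (4*c^3 + 2*c^2 - 3*c - 1) * h
  · linear_combination (-4*c^3 + 4*c^2) * h
  · linear_combination (-1/2) * h
  · linear_combination (-1/2) * h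
  · linear_combination (-4*c^3 + 4*c^2) * h
  · linear_combination (4*c^3 + 2*c^2 - 3*c - 1) * h

/-- The perturbed representation and its handle. -/
lemma rep_pert (e : ℝ) (he : |e| ≤ 1/4) (y : ZMod 7) (c : ℝ) (hcd : c = Real.cos (Real.pi / 7)) :
    IsRep (fun x => (1 + 1/c - e^2 + 2*e*(2*c^2-c-1/2) * X3 (x - y))^2
      / (7*(1 + 1/c - e^2))) := by
  have hc := cubic
  have hl := c_low
  have hu := c_high
  rw [← hcd] at hc hl hu
  have hc0 : 0 < c := by linarith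
  set g0 : ℝ := -4*c^2+2*c+2 - e^2/2 + e*(2*c^2-c-1/2) with hg0
  set g1 : ℝ := -4*c^2+2*c+2 - e^2/2 + e*(1-2*c^2) with hg1
  set g2 : ℝ := -4*c^2+2*c+2 - e^2/2 + e*c with hg2
  set g3 : ℝ := -4*c^2+2*c+2 - e^2/2 - e with hg3
  obtain ⟨v, hv⟩ := gram_exists g0 g1 g2 g3
    (fun x0 x1 x2 x3 x4 x5 x6 => Pool.Agent.H52.C7.cyc_nonneg c e hc hl hu he g0 g1 g2 g3
      hg0 hg1 hg2 hg3 x0 x1 x2 x3 x4 x5 x6)
  have hinv : 1 / c = -8*c^2+4*c+4 := by
    rw [div_eq_iff hc0.ne']; linear_combination hc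
  -- row sums
  obtain ⟨Y, hY⟩ : ∃ Y : Fin 7 → ℝ, ∀ x : ZMod 7, Y x = X3 x := ⟨fun x => X3 x, fun _ => rfl⟩
  obtain ⟨z0, z1, z2, z3, z4, z5, z6⟩ := X3_vals c hcd
  have y0 : Y 0 = 1 := (hY 0).trans z0
  have y1 : Y 1 = -c := (hY 1).trans z1
  have y2 : Y 2 = 2*c^2-1 := (hY 2).trans z2
  have y3 : Y 3 = c + 1/2 - 2*c^2 := (hY 3).trans z3
  have y4 : Y 4 = c + 1/2 - 2*c^2 := (hY 4).trans z4
  have y5 : Y 5 = 2*c^2-1 := (hY 5).trans z5
  have y6 : Y 6 = -c := (hY 6).trans z6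
  have row : ∀ x : Fin 7, ∑ z : Fin 7, Gm g0 g1 g2 g3 z x
      = 1 + 1/c - e^2 + 2*e*(2*c^2-c-1/2) * Y x := by
    intro x
    rw [hinv]
    have hx : ∀ z : Fin 7, z = 0 ∨ z = 1 ∨ z = 2 ∨ z = 3 ∨ z = 4 ∨ z = 5 ∨ z = 6 := by decide
    rcases hx x with h | h | h | h | h | h | h <;> subst h
    · rw [y0]; simp [Fin.sum_univ_seven, Gm, hg0]; ring
    · rw [y1]; simp [Fin.sum_univ_seven, Gm, hg0, hg1]
      linear_combination (e/2) * hc
    · rw [y2]; simp [Fin.sum_univ_seven, Gm, hg1, hg2]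
      linear_combination (-e*c) * hc
    · rw [y3]; simp [Fin.sum_univ_seven, Gm, hg2, hg3]
      linear_combination (e*c - e/2) * hc
    · rw [y4]; simp [Fin.sum_univ_seven, Gm, hg2, hg3]
      linear_combination (e*c - e/2) * hc
    · rw [y5]; simp [Fin.sum_univ_seven, Gm, hg1, hg2]
      linear_combination (-e*c) * hc
    · rw [y6]; simp [Fin.sum_univ_seven, Gm, hg0, hg1]
      linear_combination (e/2) * hc
  have sumX3 : ∑ x : Fin 7, Y x = 0 := by
    rw [Fin.sum_univ_seven, y0, y1, y2, y3, y4, y5, y6]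
    ring
  have hsum : ∀ x : Fin 7, ∑ k, (∑ z, v z k) * v x k
      = 1 + 1/c - e^2 + 2*e*(2*c^2-c-1/2) * Y x := by
    intro x
    rw [← row x]
    have : ∀ k, (∑ z, v z k) * v x k = ∑ z, v z k * v x k := fun k => by rw [Finset.sum_mul]
    simp only [this]
    rw [Finset.sum_comm]
    exact Finset.sum_congr rfl fun z _ => hv z x
  have htot : ∑ k, (∑ z, v z k) * (∑ z, v z k) = 7 * (1 + 1/c - e^2) := by
    have : ∀ k, (∑ z, v z k) * (∑ z, v z k) = ∑ x, (∑ z, v z k) * v x k :=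
      fun k => by rw [Finset.mul_sum]
    simp only [this]
    rw [Finset.sum_comm]
    simp only [hsum, Finset.sum_add_distrib, ← Finset.mul_sum, sumX3]
    simp
    ring
  have hpos : 0 < 7 * (1 + 1/c - e^2) := by
    have : 0 < 1 / c := by positivity
    have he2 : e^2 ≤ 1/16 := by
      have := abs_le.1 he; nlinarith
    linarith
  refine ⟨7, fun x k => v (x - y) k, fun k => ∑ z, v z k, ?_, ?_, ?_, ?_⟩
  · intro x
    rw [hv (x - y) (x - y)]
    have hx : ∀ z : Fin 7, Gm g0 g1 g2 g3 z z = 1 := by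
      intro z; fin_cases z <;> simp [Gm]
    exact hx _
  · intro x z hxz
    rw [hv (x - y) (z - y)]
    have hx : ∀ s t : Fin 7, ¬ (s - t = -1 ∨ s - t = 0 ∨ s - t = 1) → Gm g0 g1 g2 g3 s t = 0 := by
      intro s t hst
      fin_cases s <;> fin_cases t <;> first | (exfalso; apply hst; decide) | simp [Gm]
    refine hx _ _ ?_
    have e1 : (x - y) - (z - y) = x - z := by ring
    intro hcon
    apply hxz
    rw [← e1]
    exact hcon
  · rw [htot]; exact hpos
  · intro x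
    have := hsum (x - y)
    rw [htot]
    refine congrArg (fun z => z ^ 2 / (7 * (1 + 1/c - e^2))) ?_
    rw [← hY]
    exact this.symm

lemma X3_abs (d : ZMod 7) : |X3 d| ≤ 1 := by
  obtain ⟨z0, z1, z2, z3, z4, z5, z6⟩ := X3_vals _ rfl
  have hl := c_low
  have hu := c_high
  set c := Real.cos (Real.pi / 7)
  rcases red d with h | h | h | h | h | h | h <;> subst h
  · rw [z0]; simp
  · rw [z1, abs_le]; constructor <;> linarith
  · rw [z2, abs_le]; constructor <;> nlinarith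
  · rw [z3, abs_le]; constructor <;> nlinarith
  · rw [z4, abs_le]; constructor <;> nlinarith
  · rw [z5, abs_le]; constructor <;> nlinarith
  · rw [z6, abs_le]; constructor <;> linarith

lemma numB (k s T : ℝ) (hk1 : 21/100 ≤ k) (hk2 : k ≤ 22/100) (hs0 : 0 ≤ s) (hs1 : s ≤ T/32)
    (h0 : 0 ≤ T) (h1 : T ≤ 1) : 3/50 * T ≤ -s - s^2 + (k/2 - k^2/8) * T := by
  have hkk : 99/1000 ≤ k/2 - k^2/8 := by nlinarith
  have h6 : 99/1000 * T ≤ (k/2 - k^2/8) * T := mul_le_mul_of_nonneg_right hkk h0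
  have hss : s^2 ≤ T/1024 := by
    have h7 : s^2 ≤ (T/32)^2 := pow_le_pow_left₀ hs0 hs1 2
    have h8 : (T/32)^2 ≤ T/1024 := by nlinarith
    linarith
  linarith

lemma logB {α : Type} (A : Finset α) (hne : A.Nonempty) (φ : α → ZMod 7) (y : ZMod 7) (S : ℝ)
    (hS : ∑ a ∈ A, X3 (φ a - y) = A.card * S) :
    ∃ q : ZMod 7 → ℝ, IsRep q ∧ (∀ a ∈ A, 0 < q (φ a)) ∧
      (A.card : ℝ) * (Real.log (1 / C2) + 3/50 * S^2) ≤ ∑ a ∈ A, Real.log (q (φ a)) := by
  have hN : (0:ℝ) < A.card := by exact_mod_cast hne.card_pos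
  have hl := c_low
  have hu := c_high
  obtain ⟨c, hcd⟩ : ∃ c, c = Real.cos (Real.pi / 7) := ⟨_, rfl⟩
  rw [← hcd] at hl hu
  have hc0 : 0 < c := by linarith
  -- |S| ≤ 1
  have hS1 : |S| ≤ 1 := by
    have h1 : |∑ a ∈ A, X3 (φ a - y)| ≤ A.card := by
      refine (Finset.abs_sum_le_sum_abs _ _).trans ?_
      refine (Finset.sum_le_sum fun a _ => X3_abs (φ a - y)).trans ?_
      simp
    rw [hS, abs_mul, abs_of_pos hN] at h1
    exact le_of_mul_le_mul_left (by linarith) hN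
  set e : ℝ := S / 4 with he
  have heabs : |e| ≤ 1/4 := by
    rw [he, abs_div]; norm_num; linarith
  have hrep := rep_pert e heabs y c hcd
  have hS2 : S^2 ≤ 1 := by
    have := abs_le.1 hS1; nlinarith
  have hS0 : 0 ≤ S^2 := sq_nonneg S
  have he2 : e^2 = S^2/16 := by rw [he]; ring
  have l2 : 8116/10000 ≤ c^2 := by nlinarith
  have u2 : c^2 ≤ 8119/10000 := by nlinarith
  have hi1 : 2109/1000 ≤ 1 + 1/c := by
    have : 1109/1000 ≤ 1/c := by rw [le_div_iff₀ hc0]; linarith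
    linarith
  have hi2 : 1 + 1/c ≤ 2111/1000 := by
    have : 1/c ≤ 1111/1000 := by rw [div_le_iff₀ hc0]; linarith
    linarith
  set z0 : ℝ := 1 + 1/c with hz0
  have hC2 : 1 / C2 = z0 / 7 := by
    unfold C2; rw [← hcd, hz0]; field_simp
    ring
  set z : ℝ := z0 - e^2 with hz
  have hzl : 2046/1000 ≤ z := by rw [hz, he2]; linarith
  have hzu : z ≤ 2111/1000 := by rw [hz, he2]; linarith
  have hzpos : 0 < z := by linarith
  set E0 : ℝ := 2*c^2-c-1/2 with hE0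
  have hE1 : 2220/10000 ≤ E0 := by rw [hE0]; linarith
  have hE2 : E0 ≤ 2230/10000 := by rw [hE0]; linarith
  obtain ⟨k, hk⟩ : ∃ k, k * z = 2 * E0 := ⟨2*E0/z, by field_simp⟩
  have hk1 : 21/100 ≤ k := by
    by_contra hcon
    push Not at hcon
    nlinarith
  have hk2 : k ≤ 22/100 := by
    by_contra hcon
    push Not at hcon
    nlinarith
  obtain ⟨s, hs⟩ : ∃ s, s * z0 = e^2 := ⟨e^2/z0, by field_simp⟩
  have hs0 : 0 ≤ s := by
    by_contra hcon
    push Not at hcon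
    nlinarith [sq_nonneg e]
  have hs1 : s ≤ S^2/32 := by
    by_contra hcon
    push Not at hcon
    nlinarith
  have hpt : ∀ x : ZMod 7, Real.exp (Real.log (1 / C2) + ((-s - s^2)
      + 2 * (k * e * X3 (x - y) - (k * e * X3 (x - y))^2)))
      ≤ (1 + 1/c - e^2 + 2*e*(2*c^2-c-1/2) * X3 (x - y))^2 / (7*(1 + 1/c - e^2)) := by
    intro x
    have hX := abs_le.1 (X3_abs (x - y))
    have hab : |k * e * X3 (x - y)| ≤ 1/2 := by
      rw [abs_mul, abs_mul]
      have h1 : |k| ≤ 22/100 := by rw [abs_le]; constructor <;> linarith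
      have h2 := X3_abs (x - y)
      calc |k| * |e| * |X3 (x - y)| ≤ 22/100 * (1/4) * 1 := by
            apply mul_le_mul _ h2 (abs_nonneg _) (by norm_num)
            exact mul_le_mul h1 heabs (abs_nonneg _) (by norm_num)
        _ ≤ 1/2 := by norm_num
    have hab' := abs_le.1 hab
    have h1 := exp_le (k * e * X3 (x - y)) (by linarith [hab'.1]) hab'.2
    have h2 := exp_le (-s) (by linarith) (by linarith)
    have hC : 0 < 1 / C2 := by rw [hC2]; positivity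
    rw [Real.exp_add, Real.exp_add, Real.exp_log hC]
    have h3 : Real.exp (2 * (k * e * X3 (x - y) - (k * e * X3 (x - y))^2))
        ≤ (1 + k * e * X3 (x - y))^2 := by
      rw [show (2:ℝ) * (k * e * X3 (x - y) - (k * e * X3 (x - y))^2)
        = ((2:ℕ):ℝ) * (k * e * X3 (x - y) - (k * e * X3 (x - y))^2) by norm_num, Real.exp_nat_mul]
      exact pow_le_pow_left₀ (Real.exp_pos _).le h1 2
    have h4 : Real.exp (-s - s^2) ≤ 1 - s := by
      have : -s - (-s)^2 = -s - s^2 := by ring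
      rw [this] at h2; linarith
    have h5 : (1 + 1/c - e^2 + 2*e*(2*c^2-c-1/2) * X3 (x - y))^2 / (7*(1 + 1/c - e^2))
        = (1 / C2) * ((1 - s) * (1 + k * e * X3 (x - y))^2) := by
      rw [hC2]
      change (z + 2*e*E0 * X3 (x - y))^2 / (7*z) = _
      have e1 : z + 2*e*E0 * X3 (x - y) = z * (1 + k * e * X3 (x - y)) := by
        linear_combination (-e * X3 (x - y)) * hk
      have e2 : z0 * (1 - s) = z := by rw [hz]; linear_combination -hs
      rw [e1]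
      rw [show z0 / 7 * ((1 - s) * (1 + k * e * X3 (x - y))^2)
        = (z0 * (1 - s)) * (1 + k * e * X3 (x - y))^2 / 7 by ring, e2]
      field_simp
    rw [h5]
    refine mul_le_mul_of_nonneg_left ?_ hC.le
    exact mul_le_mul h4 h3 (Real.exp_pos _).le (le_trans (Real.exp_pos _).le h4)
  refine ⟨_, hrep, fun a _ => lt_of_lt_of_le (Real.exp_pos _) (hpt (φ a)), ?_⟩
  have hlog : ∀ a ∈ A, Real.log (1 / C2) + ((-s - s^2)
      + 2 * (k * e * X3 (φ a - y) - (k * e)^2)) ≤ Real.log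
      ((1 + 1/c - e^2 + 2*e*(2*c^2-c-1/2) * X3 (φ a - y))^2 / (7*(1 + 1/c - e^2))) := by
    intro a _
    have hpos : 0 < (1 + 1/c - e^2 + 2*e*(2*c^2-c-1/2) * X3 (φ a - y))^2 / (7*(1 + 1/c - e^2)) :=
      lt_of_lt_of_le (Real.exp_pos _) (hpt (φ a))
    rw [Real.le_log_iff_exp_le hpos]
    refine le_trans (Real.exp_le_exp.2 ?_) (hpt (φ a))
    have hX := X3_abs (φ a - y)
    have hX2 : (X3 (φ a - y))^2 ≤ 1 := by
      have := abs_le.1 hX; nlinarith
    have : (k * e * X3 (φ a - y))^2 ≤ (k*e)^2 := by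
      rw [mul_pow]
      have := mul_le_mul_of_nonneg_left hX2 (sq_nonneg (k*e))
      linarith
    linarith
  refine le_trans ?_ (Finset.sum_le_sum hlog)
  have hsum : ∑ a ∈ A, (Real.log (1 / C2) + ((-s - s^2)
      + 2 * (k * e * X3 (φ a - y) - (k * e)^2)))
      = A.card * (Real.log (1 / C2) + (-s - s^2) + 2 * (k * e * S - (k*e)^2)) := by
    have : ∀ a, Real.log (1 / C2) + ((-s - s^2)
      + 2 * (k * e * X3 (φ a - y) - (k * e)^2)) = (Real.log (1 / C2) + (-s - s^2) - 2 * (k*e)^2)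
        + 2 * k * e * X3 (φ a - y) := fun a => by ring
    simp only [this, Finset.sum_add_distrib, ← Finset.mul_sum, hS, Finset.sum_const, nsmul_eq_mul]
    ring
  rw [hsum]
  refine mul_le_mul_of_nonneg_left ?_ hN.le
  have hke : 2 * (k * e * S - (k*e)^2) = (k/2 - k^2/8) * S^2 := by rw [he]; ring
  have hfin := numB k s (S^2) hk1 hk2 hs0 hs1 hS0 hS2
  rw [hke]
  linarith

lemma cos_sum_sq {α : Type} (A : Finset α) (ψ : α → ℝ) (η : ℝ) :
    (∑ a ∈ A, Real.cos (ψ a - η)) ^ 2 ≤ ∑ a ∈ A, ∑ b ∈ A, Real.cos (ψ a - ψ b) := by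
  have h1 : ∑ a ∈ A, ∑ b ∈ A, Real.cos (ψ a - ψ b)
      = (∑ a ∈ A, Real.cos (ψ a)) ^ 2 + (∑ a ∈ A, Real.sin (ψ a)) ^ 2 := by
    simp only [Real.cos_sub, Finset.sum_add_distrib, ← Finset.mul_sum, ← Finset.sum_mul]
    ring
  have h2 : ∑ a ∈ A, Real.cos (ψ a - η)
      = (∑ a ∈ A, Real.cos (ψ a)) * Real.cos η + (∑ a ∈ A, Real.sin (ψ a)) * Real.sin η := by
    simp only [Real.cos_sub, Finset.sum_add_distrib, ← Finset.sum_mul]
  rw [h1, h2]
  set P := ∑ a ∈ A, Real.cos (ψ a)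
  set R := ∑ a ∈ A, Real.sin (ψ a)
  have h3 := Real.sin_sq_add_cos_sq η
  have key : P^2 + R^2 - (P * Real.cos η + R * Real.sin η)^2
      = (P * Real.sin η - R * Real.cos η)^2 := by
    linear_combination (-P^2 - R^2) * h3
  nlinarith [sq_nonneg (P * Real.sin η - R * Real.cos η)]

lemma logA {α : Type} (A : Finset α) (hne : A.Nonempty) (φ : α → ZMod 7) (y : ZMod 7)
    (S1 S2 : ℝ) (hS1 : ∑ a ∈ A, X (φ a - y) = A.card * S1)
    (hS2 : ∑ a ∈ A, (2 * X (φ a - y) ^ 2 - 1) = A.card * S2) :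
    ∃ q : ZMod 7 → ℝ, IsRep q ∧ (∀ a ∈ A, 0 < q (φ a)) ∧
      (A.card : ℝ) * (Real.log (1 / C2) + 1/10 * (S1^2 + S2^2))
        ≤ ∑ a ∈ A, Real.log (q (φ a)) := by
  have hN : (0:ℝ) < A.card := by exact_mod_cast hne.card_pos
  have hl := c_low
  have hu := c_high
  have hc0 : 0 < Real.cos (Real.pi / 7) := by linarith
  have hCC : Pool.Agent.H52.Stab.C2 = C2 := rfl
  have ht : 0 < 1 / C2 := by unfold C2; positivity
  have hwt0 : wt 0 = 1 := by simp [wt]
  have huu : ∀ x, ∑ k, u x k * u x k = 1 := fun x => by rw [u_gram]; simp [hwt0]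
  have hfu : ∀ x, ∑ k, f0 k * u x k = 1 / C2 := fun x => by rw [f0_u, hCC]
  have hff : ∑ k, f0 k * f0 k = 1 / C2 := by rw [f0_f0, hCC]
  obtain ⟨w, r, hQ0, hQ1, hwU, hww, hfw, hsum, hr2⟩ := block A hne (fun a => u (φ a)) f0 (1 / C2)
    (fun a _ => huu (φ a)) (fun a _ => hfu (φ a)) hff _ rfl
  set Q := (∑ a ∈ A, ∑ b ∈ A, ∑ k, u (φ a) k * u (φ b) k) / (A.card : ℝ)^2 - 1 / C2 with hQ
  set t := 1 / C2 with htdef
  -- lower bound of Q
  have hQlow : 2/10 * (S1^2 + S2^2) ≤ Q := by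
    have e1 : ∀ a b, ∑ k, u (φ a) k * u (φ b) k
        = t + 2 * (1 + X 1 / Real.cos (Real.pi / 7)) / 7 *
          Real.cos (2 * Real.pi * ((φ a).val : ℝ) / 7 - 2 * Real.pi * ((φ b).val : ℝ) / 7)
        + 2 * (1 + X 2 / Real.cos (Real.pi / 7)) / 7 *
          Real.cos (2 * (2 * Real.pi * ((φ a).val : ℝ) / 7)
            - 2 * (2 * Real.pi * ((φ b).val : ℝ) / 7)) := by
      intro a b
      rw [u_gram, ← gram_id, ← cos_sub_val (φ a) (φ b)]
      have e2 : Real.cos (2 * (2 * Real.pi * ((φ a).val : ℝ) / 7)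
            - 2 * (2 * Real.pi * ((φ b).val : ℝ) / 7))
          = 2 * Real.cos (2 * Real.pi * ((φ a).val : ℝ) / 7
            - 2 * Real.pi * ((φ b).val : ℝ) / 7) ^ 2 - 1 := by
        rw [← Real.cos_two_mul]; congr 1; ring
      have e3 : t = (1 + Real.cos (Real.pi / 7)) / (7 * Real.cos (Real.pi / 7)) := by
        rw [htdef]; unfold C2; rw [one_div_div]
      rw [e2, e3]
    obtain ⟨-, x1, x2, -⟩ := X_vals
    set B1 := 2 * (1 + X 1 / Real.cos (Real.pi / 7)) / 7 with hB1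
    set B2 := 2 * (1 + X 2 / Real.cos (Real.pi / 7)) / 7 with hB2
    have hB1l : 2/10 ≤ B1 := by
      have : -3/10 ≤ X 1 / Real.cos (Real.pi / 7) := by
        rw [le_div_iff₀ hc0, x1]; nlinarith
      rw [hB1]; linarith
    have hB2l : 2/10 ≤ B2 := by
      have : -3/10 ≤ X 2 / Real.cos (Real.pi / 7) := by
        rw [le_div_iff₀ hc0, x2]
        set c := Real.cos (Real.pi / 7)
        have hh : 2 * (2 * c ^ 2 - 1) ^ 2 - 1 = c + 1/2 - 2 * c ^ 2 := by
          linear_combination (c + 1/2) * cubic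
        rw [hh]; nlinarith
      rw [hB2]; linarith
    have f1 := cos_sum_sq A (fun a => 2 * Real.pi * ((φ a).val : ℝ) / 7)
      (2 * Real.pi * (y.val : ℝ) / 7)
    have f2 := cos_sum_sq A (fun a => 2 * (2 * Real.pi * ((φ a).val : ℝ) / 7))
      (2 * (2 * Real.pi * (y.val : ℝ) / 7))
    have g1 : ∑ a ∈ A, Real.cos (2 * Real.pi * ((φ a).val : ℝ) / 7 - 2 * Real.pi * (y.val : ℝ) / 7)
        = A.card * S1 := by
      rw [← hS1]; exact Finset.sum_congr rfl fun a _ => cos_sub_val _ _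
    have g2 : ∑ a ∈ A, Real.cos (2 * (2 * Real.pi * ((φ a).val : ℝ) / 7)
        - 2 * (2 * Real.pi * (y.val : ℝ) / 7)) = A.card * S2 := by
      rw [← hS2]
      refine Finset.sum_congr rfl fun a _ => ?_
      rw [← cos_sub_val, ← Real.cos_two_mul]; congr 1; ring
    rw [g1] at f1
    rw [g2] at f2
    set T1 := ∑ a ∈ A, ∑ b ∈ A, Real.cos (2 * Real.pi * ((φ a).val : ℝ) / 7
      - 2 * Real.pi * ((φ b).val : ℝ) / 7) with hT1
    set T2 := ∑ a ∈ A, ∑ b ∈ A, Real.cos (2 * (2 * Real.pi * ((φ a).val : ℝ) / 7)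
      - 2 * (2 * Real.pi * ((φ b).val : ℝ) / 7)) with hT2
    have hQe : Q * (A.card : ℝ)^2 = B1 * T1 + B2 * T2 := by
      have : ∑ a ∈ A, ∑ b ∈ A, ∑ k, u (φ a) k * u (φ b) k
          = (A.card : ℝ)^2 * t + B1 * T1 + B2 * T2 := by
        simp only [e1, Finset.sum_add_distrib, ← Finset.mul_sum, Finset.sum_const, nsmul_eq_mul]
        rw [hT1, hT2]
        ring
      rw [hQ, this]
      field_simp
      ring
    have hN2 : 0 < (A.card : ℝ)^2 := by positivity
    have h7 : 2/10 * (S1^2 + S2^2) * (A.card : ℝ)^2 ≤ Q * (A.card : ℝ)^2 := by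
      rw [hQe]
      have k1 : 2/10 * ((A.card : ℝ) * S1)^2 ≤ B1 * T1 :=
        mul_le_mul hB1l f1 (sq_nonneg _) (by linarith)
      have k2 : 2/10 * ((A.card : ℝ) * S2)^2 ≤ B2 * T2 :=
        mul_le_mul hB2l f2 (sq_nonneg _) (by linarith)
      linarith
    exact le_of_mul_le_mul_right h7 hN2
  set h : Fin 5 → ℝ := fun k => f0 k + t / 2 * w k with hh
  have hhu : ∀ a ∈ A, ∑ k, h k * u (φ a) k = t * (1 + r a / 2) := by
    intro a ha
    have : ∀ k, h k * u (φ a) k = f0 k * u (φ a) k + t / 2 * (w k * u (φ a) k) :=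
      fun k => by simp only [hh]; ring
    simp only [this, Finset.sum_add_distrib, ← Finset.mul_sum, hfu, hwU a ha]
    ring
  have hhh : ∑ k, h k * h k = t * (1 + t * Q / 4) := by
    have : ∀ k, h k * h k = f0 k * f0 k + t * (f0 k * w k) + t ^2 / 4 * (w k * w k) :=
      fun k => by simp only [hh]; ring
    simp only [this, Finset.sum_add_distrib, ← Finset.mul_sum, hff, hfw, hww]
    ring
  have htQ : 0 ≤ t * Q := mul_nonneg ht.le hQ0
  have hhpos : 0 < ∑ k, h k * h k := by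
    rw [hhh]; exact mul_pos ht (by linarith)
  have hrep : IsRep (fun x => (∑ k, h k * u x k) ^ 2 / ∑ k, h k * h k) := by
    refine ⟨5, u, h, huu, ?_, hhpos, fun x => rfl⟩
    intro x z hxz
    rw [u_gram]
    exact Pool.Agent.H52.Stab.wt_zero_of _ hxz
  have hpt : ∀ a ∈ A, Real.exp (Real.log t + (r a - Q * (1 - t) / 2 - t * Q / 4))
      ≤ (∑ k, h k * u (φ a) k) ^ 2 / ∑ k, h k * h k := by
    intro a ha
    rw [hhu a ha, hhh]
    have hr := hr2 a ha
    have h1 : |r a| ≤ 1 := by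
      rw [abs_le]; constructor <;> nlinarith
    have h1' := abs_le.1 h1
    have h2 := exp_le (r a / 2) (by linarith [h1'.1]) (by linarith [h1'.2])
    have h3 : Real.exp (r a - Q * (1 - t) / 2) ≤ (1 + r a / 2) ^ 2 := by
      have : Real.exp (r a - Q * (1 - t) / 2) ≤ Real.exp (r a / 2 - (r a / 2)^2) ^ 2 := by
        rw [← Real.exp_nat_mul]
        refine Real.exp_le_exp.2 ?_
        push_cast
        nlinarith
      exact this.trans (pow_le_pow_left₀ (Real.exp_pos _).le h2 2)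
    have h4 : Real.exp (-(t * Q / 4)) ≤ 1 / (1 + t * Q / 4) := by
      rw [Real.exp_neg, ← one_div]
      refine one_div_le_one_div_of_le (by linarith) ?_
      have := Real.add_one_le_exp (t * Q / 4)
      linarith
    have e1 : Real.log t + (r a - Q * (1 - t) / 2 - t * Q / 4)
        = Real.log t + (r a - Q * (1 - t) / 2) + (-(t * Q / 4)) := by ring
    rw [e1, Real.exp_add, Real.exp_add, Real.exp_log ht]
    have e2 : (t * (1 + r a / 2)) ^ 2 / (t * (1 + t * Q / 4))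
        = t * (1 + r a / 2) ^ 2 * (1 / (1 + t * Q / 4)) := by
      have : (1 + t * Q / 4) ≠ 0 := by linarith
      field_simp
    rw [e2]
    refine mul_le_mul (mul_le_mul_of_nonneg_left h3 ht.le) h4 (Real.exp_pos _).le (by positivity)
  refine ⟨_, hrep, fun a ha => lt_of_lt_of_le (Real.exp_pos _) (hpt a ha), ?_⟩
  have hlog : ∀ a ∈ A, Real.log t + (r a - Q * (1 - t) / 2 - t * Q / 4) ≤ Real.log
      ((∑ k, h k * u (φ a) k) ^ 2 / ∑ k, h k * h k) := by
    intro a ha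
    rw [Real.le_log_iff_exp_le (lt_of_lt_of_le (Real.exp_pos _) (hpt a ha))]
    exact hpt a ha
  refine le_trans ?_ (Finset.sum_le_sum hlog)
  have hs : ∑ a ∈ A, (Real.log t + (r a - Q * (1 - t) / 2 - t * Q / 4))
      = A.card * (Real.log t + (Q - Q * (1 - t) / 2 - t * Q / 4)) := by
    have : ∀ a, Real.log t + (r a - Q * (1 - t) / 2 - t * Q / 4)
        = (Real.log t - Q * (1 - t) / 2 - t * Q / 4) + r a := fun a => by ring
    simp only [this, Finset.sum_add_distrib, hsum, Finset.sum_const, nsmul_eq_mul]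
    ring
  rw [hs]
  refine mul_le_mul_of_nonneg_left ?_ hN.le
  nlinarith

lemma inv7 (d : ZMod 7) :
    (if d = 0 then (1:ℝ) else 0) = 1/7 + 2/7 * (X d + (2 * X d ^ 2 - 1) + X3 d) := by
  obtain ⟨z0, z1, z2, z3, z4, z5, z6⟩ := X3_vals _ rfl
  obtain ⟨x0, x1, x2, x3, x4, x5, x6⟩ := X_vals
  have h := cubic
  set c := Real.cos (Real.pi / 7)
  rcases red d with k | k | k | k | k | k | k <;> subst k
  · rw [if_pos rfl, z0, x0]; norm_num
  · rw [if_neg (by decide), z1, x1]; linear_combination (-2/7) * (c + 1/2) * h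
  · rw [if_neg (by decide), z2, x2]; linear_combination (-(3/7 + 12/7*c - 16/7*c^2 - 40/7*c^3 + 16/7*c^4 + 32/7*c^5)) * h
  · rw [if_neg (by decide), z3, x3]; ring
  · rw [if_neg (by decide), z4, x4]; ring
  · rw [if_neg (by decide), z5, x5]; linear_combination (-(3/7 + 12/7*c - 16/7*c^2 - 40/7*c^3 + 16/7*c^4 + 32/7*c^5)) * h
  · rw [if_neg (by decide), z6, x6]; linear_combination (-2/7) * (c + 1/2) * h

lemma coord {α : Type} (A : Finset α) (hne : A.Nonempty) (φ : α → ZMod 7) (y : ZMod 7) :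
    ∃ q : ZMod 7 → ℝ, IsRep q ∧ (∀ a ∈ A, 0 < q (φ a)) ∧
      (A.card : ℝ) * (Real.log (1 / C2)
        + 1/10 * (((A.filter (fun a => φ a = y)).card : ℝ) / A.card - 1/7)^2)
        ≤ ∑ a ∈ A, Real.log (q (φ a)) := by
  have hN : (0:ℝ) < A.card := by exact_mod_cast hne.card_pos
  obtain ⟨S1, hS1⟩ : ∃ S : ℝ, ∑ a ∈ A, X (φ a - y) = A.card * S :=
    ⟨(∑ a ∈ A, X (φ a - y)) / A.card, by field_simp⟩
  obtain ⟨S2, hS2⟩ : ∃ S : ℝ, ∑ a ∈ A, (2 * X (φ a - y) ^ 2 - 1) = A.card * S :=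
    ⟨(∑ a ∈ A, (2 * X (φ a - y) ^ 2 - 1)) / A.card, by field_simp⟩
  obtain ⟨S3, hS3⟩ : ∃ S : ℝ, ∑ a ∈ A, X3 (φ a - y) = A.card * S :=
    ⟨(∑ a ∈ A, X3 (φ a - y)) / A.card, by field_simp⟩
  have hf : ((A.filter (fun a => φ a = y)).card : ℝ) / A.card - 1/7 = 2/7 * (S1 + S2 + S3) := by
    have h1 : ((A.filter (fun a => φ a = y)).card : ℝ)
        = ∑ a ∈ A, (if φ a - y = 0 then (1:ℝ) else 0) := by
      rw [Finset.card_filter]
      push_cast
      exact Finset.sum_congr rfl fun a _ => by simp [sub_eq_zero]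
    have h2 : ∑ a ∈ A, (if φ a - y = 0 then (1:ℝ) else 0)
        = A.card * (1/7 + 2/7 * (S1 + S2 + S3)) := by
      simp only [inv7, Finset.sum_add_distrib, ← Finset.mul_sum]
      rw [hS1, hS2, hS3, Finset.sum_const, nsmul_eq_mul]
      ring
    rw [h1, h2]
    field_simp
    ring
  have hsq : (S1 + S2 + S3)^2 ≤ 3 * (S1^2 + S2^2 + S3^2) := by
    nlinarith [sq_nonneg (S1 - S2), sq_nonneg (S2 - S3), sq_nonneg (S1 - S3)]
  rcases le_total (S1^2 + S2^2) (S3^2) with h | h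
  · obtain ⟨q, h1, h2, h3⟩ := logB A hne φ y S3 hS3
    refine ⟨q, h1, h2, le_trans (mul_le_mul_of_nonneg_left ?_ hN.le) h3⟩
    rw [hf]
    nlinarith
  · obtain ⟨q, h1, h2, h3⟩ := logA A hne φ y S1 S2 hS1 hS2
    refine ⟨q, h1, h2, le_trans (mul_le_mul_of_nonneg_left ?_ hN.le) h3⟩
    rw [hf]
    nlinarith [sq_nonneg S1, sq_nonneg S2]

/-- Let A be a nonempty subset of F_7^n in which no two distinct elements differ by a vector of
`{-1,0,1}^n`, and let y_1,...,y_n be any letters of F_7. Then A has at most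
C_2^n * exp(-(1/10) * (sum over i of (freq_i(y_i) - 1/7)^2)) elements, where freq_i(y) is the
proportion of the elements of A whose i-th coordinate is y. -/
theorem main (n : ℕ) (A : Finset (Fin n → ZMod 7)) (hne : A.Nonempty)
    (hA : ∀ a ∈ A, ∀ b ∈ A,
      (∀ i, a i - b i = -1 ∨ a i - b i = 0 ∨ a i - b i = 1) → a = b) (y : Fin n → ZMod 7) :
    (A.card : ℝ) ≤ C2 ^ n * Real.exp (-(1/10) * ∑ i, (freq A i (y i) - 1/7)^2) := by
  have hN : (0:ℝ) < A.card := by exact_mod_cast hne.card_pos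
  have hc0 : 0 < Real.cos (Real.pi / 7) := by linarith [c_low]
  have hC : 0 < C2 := by unfold C2; positivity
  have hq := fun i => coord A hne (fun a => a i) (y i)
  choose q hq1 hq2 hq3 using hq
  have hle := prod_le A hA q hq1
  set L : (Fin n → ZMod 7) → ℝ := fun a => ∑ i, Real.log (q i (a i)) with hL
  have hprod : ∀ a ∈ A, ∏ i, q i (a i) = Real.exp (L a) := by
    intro a ha
    rw [hL, Real.exp_sum]
    exact Finset.prod_congr rfl fun i _ => (Real.exp_log (hq2 i a ha)).symm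
  rw [Finset.sum_congr rfl hprod] at hle
  obtain ⟨M, hM⟩ : ∃ M, ∑ a ∈ A, L a = A.card * M :=
    ⟨(∑ a ∈ A, L a) / A.card, by field_simp⟩
  have hexp : (A.card : ℝ) * Real.exp M ≤ ∑ a ∈ A, Real.exp (L a) := by
    have h1 : ∀ a ∈ A, Real.exp M * (1 + (L a - M)) ≤ Real.exp (L a) := by
      intro a _
      have h2 := Real.add_one_le_exp (L a - M)
      have h3 : Real.exp (L a) = Real.exp M * Real.exp (L a - M) := by
        rw [← Real.exp_add]; congr 1; ring
      rw [h3]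
      exact mul_le_mul_of_nonneg_left (by linarith) (Real.exp_pos _).le
    refine le_trans (le_of_eq ?_) (Finset.sum_le_sum h1)
    rw [← Finset.mul_sum, Finset.sum_add_distrib, Finset.sum_sub_distrib, hM]
    simp only [Finset.sum_const, nsmul_eq_mul]
    ring
  have hMlow : (n : ℝ) * Real.log (1 / C2) + 1/10 * ∑ i, (freq A i (y i) - 1/7)^2 ≤ M := by
    have h1 : (A.card : ℝ) * ((n : ℝ) * Real.log (1 / C2)
        + 1/10 * ∑ i, (freq A i (y i) - 1/7)^2) ≤ A.card * M := by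
      rw [← hM]
      have h2 : ∑ a ∈ A, L a = ∑ i, ∑ a ∈ A, Real.log (q i (a i)) := by
        rw [hL, Finset.sum_comm]
      rw [h2]
      refine le_trans (le_of_eq ?_) (Finset.sum_le_sum fun i _ => hq3 i)
      rw [← Finset.mul_sum, Finset.sum_add_distrib, ← Finset.mul_sum]
      simp [freq]
    exact le_of_mul_le_mul_left h1 hN
  have h3 : (A.card : ℝ) * Real.exp M ≤ 1 := hexp.trans hle
  have h4 : (A.card : ℝ) ≤ Real.exp (-M) := by
    rw [Real.exp_neg, ← one_div, le_div_iff₀ (Real.exp_pos _)]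
    exact h3
  refine h4.trans ?_
  have h5 : C2 ^ n * Real.exp (-(1/10) * ∑ i, (freq A i (y i) - 1/7)^2)
      = Real.exp (-((n : ℝ) * Real.log (1 / C2) + 1/10 * ∑ i, (freq A i (y i) - 1/7)^2)) := by
    have h6 : C2 ^ n = Real.exp (-((n : ℝ) * Real.log (1 / C2))) := by
      rw [one_div, Real.log_inv]
      have : -((n : ℝ) * -Real.log C2) = (n : ℝ) * Real.log C2 := by ring
      rw [this, Real.exp_nat_mul, Real.exp_log hC]
    rw [h6, ← Real.exp_add]
    congr 1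
    ring
  rw [h5]
  exact Real.exp_le_exp.2 (by linarith)

end Pool.Agent.H52.Letter
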