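import Mathlib

set_option autoImplicit false

namespace Pool.Agent.H52.Stab

open Finset

/-- The weight on differences: 1 at 0, 1/(2 cos(pi/7)) at 1 and -1, and 0 elsewhere. -/
noncomputable def wt (d : ZMod 7) : ℝ :=
  if d = 0 then 1 else if d = 1 ∨ d = -1 then 1 / (2 * Real.cos (Real.pi / 7)) else 0

/-- The number C_2 of the problem (the Lovasz theta number of the 7-cycle). -/
noncomputable def C2 : ℝ := 7 * Real.cos (Real.pi / 7) / (1 + Real.cos (Real.pi / 7))

/-- Mean over all ordered pairs (a,b) in A x A of the product of the weights of the differences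
a i - b i over the coordinates i of the block number j. -/
noncomputable def kappa {n r : ℕ} (p : Fin n → Fin r) (A : Finset (Fin n → ZMod 7))
    (j : Fin r) : ℝ :=
  (∑ a ∈ A, ∑ b ∈ A, ∏ i ∈ univ.filter (fun i => p i = j), wt (a i - b i)) / (A.card : ℝ) ^ 2

lemma exp_le (y : ℝ) (h1 : -(1/2) ≤ y) (h2 : y ≤ 1/2) : Real.exp (y - y^2) ≤ 1 + y := by
  rcases le_or_gt 0 y with h | h
  · have hw0 : 0 ≤ y - y^2 := by nlinarith
    have hw1 : y - y^2 < 1 := by nlinarith
    have := Real.exp_bound_div_one_sub_of_interval hw0 hw1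
    refine this.trans ?_
    rw [div_le_iff₀ (by linarith)]
    nlinarith [pow_nonneg h 3]
  · set x := -y with hx
    have hx0 : 0 < x := by linarith
    have hx1 : x ≤ 1/2 := by linarith
    have hz : 0 ≤ x + x^2 := by positivity
    have hq := Real.quadratic_le_exp_of_nonneg hz
    have e : y - y^2 = -(x + x^2) := by rw [hx]; ring
    rw [e, Real.exp_neg, inv_le_comm₀ (Real.exp_pos _) (by linarith)]
    refine le_trans ?_ hq
    have hy : 1 + y = 1 - x := by rw [hx]; ring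
    rw [hy, inv_le_iff_one_le_mul₀ (by linarith)]
    have key : (1 + (x + x^2) + (x + x^2)^2/2) * (1 - x) - 1
        = x^2 * ((1+x)^2*(1-x)/2 - x) := by ring
    have k2 : 0 ≤ (1+x)^2*(1-x)/2 - x := by nlinarith [mul_pos hx0 hx0, mul_nonneg hx0.le (sub_nonneg.2 hx1)]
    have : 0 ≤ x^2 * ((1+x)^2*(1-x)/2 - x) := by positivity
    linarith

lemma bessel {K α : Type} [Fintype K] [DecidableEq α] (A : Finset α) (T : α → K → ℝ)
    (H : K → ℝ) (h : ∀ a ∈ A, ∀ b ∈ A, ∑ k, T a k * T b k = if a = b then 1 else 0) :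
    ∑ a ∈ A, (∑ k, H k * T a k)^2 ≤ ∑ k, H k * H k := by
  set c : α → ℝ := fun a => ∑ k, H k * T a k with hc
  have e2 : ∑ k, H k * (∑ a ∈ A, c a * T a k) = ∑ a ∈ A, c a ^ 2 := by
    simp only [Finset.mul_sum]
    rw [Finset.sum_comm]
    refine Finset.sum_congr rfl fun a _ => ?_
    have : ∑ k, H k * (c a * T a k) = c a * ∑ k, H k * T a k := by
      rw [Finset.mul_sum]; exact Finset.sum_congr rfl fun k _ => by ring
    rw [this]; simp only [hc]; ring
  have e3 : ∑ k, (∑ a ∈ A, c a * T a k) * (∑ b ∈ A, c b * T b k) = ∑ a ∈ A, c a ^ 2 := by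
    simp only [Finset.sum_mul_sum]
    rw [Finset.sum_comm]
    refine Finset.sum_congr rfl fun a ha => ?_
    rw [Finset.sum_comm]
    have : ∀ b ∈ A, ∑ k, c a * T a k * (c b * T b k) = if a = b then c a * c b else 0 := by
      intro b hb
      have e : ∑ k, c a * T a k * (c b * T b k) = c a * c b * ∑ k, T a k * T b k := by
        rw [Finset.mul_sum]; exact Finset.sum_congr rfl fun k _ => by ring
      rw [e, h a ha b hb]; split_ifs <;> simp
    rw [Finset.sum_congr rfl this, Finset.sum_ite_eq, if_pos ha]; ring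
  have e1 : ∑ k, (H k - ∑ a ∈ A, c a * T a k)^2 = ∑ k, H k * H k - ∑ a ∈ A, c a ^2 := by
    have : ∀ k, (H k - ∑ a ∈ A, c a * T a k)^2
        = H k * H k - 2 * (H k * (∑ a ∈ A, c a * T a k))
          + (∑ a ∈ A, c a * T a k) * (∑ b ∈ A, c b * T b k) := fun k => by ring
    simp only [this, Finset.sum_add_distrib, Finset.sum_sub_distrib, ← Finset.mul_sum, e2, e3]
    ring
  have : 0 ≤ ∑ k, (H k - ∑ a ∈ A, c a * T a k)^2 := Finset.sum_nonneg fun k _ => sq_nonneg _
  linarith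

lemma tens {J : Type} [Fintype J] [DecidableEq J] (ι : J → Type) [∀ j, Fintype (ι j)]
    (F G : ∀ j, ι j → ℝ) :
    ∑ k : (∀ j, ι j), (∏ j, F j (k j)) * (∏ j, G j (k j)) = ∏ j, ∑ x, F j x * G j x := by
  classical
  rw [Finset.prod_univ_sum]
  simp only [Fintype.piFinset_univ, Finset.prod_mul_distrib]

/-- One block: facts on the mean vector. -/
lemma block {I α : Type} [Fintype I] (A : Finset α) (hne : A.Nonempty)
    (U : α → I → ℝ) (f : I → ℝ) (t : ℝ)
    (hU : ∀ a ∈ A, ∑ k, U a k * U a k = 1)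
    (hf : ∀ a ∈ A, ∑ k, f k * U a k = t)
    (hff : ∑ k, f k * f k = t) (Q : ℝ)
    (hQ : Q = (∑ a ∈ A, ∑ b ∈ A, ∑ k, U a k * U b k) / (A.card : ℝ)^2 - t) :
    ∃ (w : I → ℝ) (r : α → ℝ), 0 ≤ Q ∧ Q ≤ 1 - t ∧
      (∀ a ∈ A, ∑ k, w k * U a k = r a) ∧
      (∑ k, w k * w k = Q) ∧ (∑ k, f k * w k = 0) ∧
      (∑ a ∈ A, r a = A.card * Q) ∧ (∀ a ∈ A, r a ^ 2 ≤ Q * (1 - t)) := by
  have hN : (0:ℝ) < A.card := by exact_mod_cast hne.card_pos
  set N : ℝ := (A.card : ℝ) with hNdef
  set m : I → ℝ := fun k => (∑ a ∈ A, U a k) / N with hm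
  have hmU : ∀ g : I → ℝ, ∑ k, m k * g k = (∑ a ∈ A, ∑ k, U a k * g k) / N := by
    intro g
    rw [Finset.sum_comm, Finset.sum_div]
    refine Finset.sum_congr rfl fun k _ => ?_
    simp only [hm]; rw [← Finset.sum_mul]; ring
  have hmf : ∑ k, m k * f k = t := by
    rw [hmU]
    have : ∑ a ∈ A, ∑ k, U a k * f k = ∑ a ∈ A, t :=
      Finset.sum_congr rfl fun a ha => by
        rw [← hf a ha]; exact Finset.sum_congr rfl fun k _ => by ring
    rw [this, Finset.sum_const, nsmul_eq_mul, ← hNdef]; field_simp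
  have hmm : ∑ k, m k * m k = Q + t := by
    have e : ∀ a ∈ A, ∑ k, U a k * m k = (∑ b ∈ A, ∑ k, U a k * U b k) / N := by
      intro a _
      have : ∑ k, U a k * m k = ∑ k, m k * U a k := Finset.sum_congr rfl fun k _ => by ring
      rw [this, hmU]
      congr 1
      exact Finset.sum_congr rfl fun b _ => Finset.sum_congr rfl fun k _ => by ring
    rw [hmU, Finset.sum_congr rfl e, ← Finset.sum_div, hQ]
    field_simp
    ring
  refine ⟨fun k => m k - f k, fun a => ∑ k, (m k - f k) * U a k, ?_⟩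
  have hww : ∑ k, (m k - f k) * (m k - f k) = Q := by
    have : ∀ k, (m k - f k) * (m k - f k) = m k * m k - 2 * (m k * f k) + f k * f k :=
      fun k => by ring
    simp only [this, Finset.sum_add_distrib, Finset.sum_sub_distrib, ← Finset.mul_sum, hmm, hmf,
      hff]
    ring
  have hfw : ∑ k, f k * (m k - f k) = 0 := by
    have : ∀ k, f k * (m k - f k) = m k * f k - f k * f k := fun k => by ring
    simp only [this, Finset.sum_sub_distrib, hmf, hff]
    ring
  have hQ0 : 0 ≤ Q := by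
    rw [← hww]; exact Finset.sum_nonneg fun k _ => mul_self_nonneg _
  have hUf : ∀ a ∈ A, ∑ k, (U a k - f k) ^ 2 = 1 - t := by
    intro a ha
    have : ∀ k, (U a k - f k) ^ 2 = U a k * U a k - 2 * (f k * U a k) + f k * f k :=
      fun k => by ring
    simp only [this, Finset.sum_add_distrib, Finset.sum_sub_distrib, ← Finset.mul_sum, hU a ha,
      hf a ha, hff]
    ring
  have hr2 : ∀ a ∈ A, (∑ k, (m k - f k) * U a k) ^ 2 ≤ Q * (1 - t) := by
    intro a ha
    have e : ∑ k, (m k - f k) * U a k = ∑ k, (m k - f k) * (U a k - f k) := by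
      have : ∀ k, (m k - f k) * (U a k - f k) = (m k - f k) * U a k - f k * (m k - f k) :=
        fun k => by ring
      simp only [this, Finset.sum_sub_distrib, hfw, sub_zero]
    rw [e]
    refine (Finset.sum_mul_sq_le_sq_mul_sq _ _ _).trans ?_
    rw [hUf a ha]
    have : ∑ k, (m k - f k) ^ 2 = Q := by
      rw [← hww]; exact Finset.sum_congr rfl fun k _ => by ring
    rw [this]
  have hsum : ∑ a ∈ A, ∑ k, (m k - f k) * U a k = N * Q := by
    have h1 : ∑ k, m k * (m k - f k) = Q := by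
      have : ∀ k, m k * (m k - f k) = m k * m k - m k * f k := fun k => by ring
      simp only [this, Finset.sum_sub_distrib, hmm, hmf]
      ring
    rw [hmU] at h1
    have h2 : ∑ a ∈ A, ∑ k, U a k * (m k - f k) = N * Q := by
      rw [div_eq_iff hN.ne'] at h1; rw [h1]; ring
    rw [← h2]
    exact Finset.sum_congr rfl fun a _ => Finset.sum_congr rfl fun k _ => by ring
  obtain ⟨a0, ha0⟩ := hne
  have ht1 : 0 ≤ 1 - t := by
    rw [← hUf a0 ha0]; exact Finset.sum_nonneg fun k _ => sq_nonneg _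
  have hQ1 : Q ≤ 1 - t := by
    by_contra hcon
    push Not at hcon
    have hQpos : 0 < Q := lt_of_le_of_lt ht1 hcon
    have hlt : ∀ a ∈ A, ∑ k, (m k - f k) * U a k < Q := by
      intro a ha
      have h := hr2 a ha
      nlinarith
    have : ∑ a ∈ A, ∑ k, (m k - f k) * U a k < ∑ a ∈ A, Q :=
      Finset.sum_lt_sum_of_nonempty ⟨a0, ha0⟩ hlt
    rw [hsum, Finset.sum_const, nsmul_eq_mul] at this
    exact lt_irrefl _ this
  exact ⟨hQ0, hQ1, fun a _ => rfl, hww, hfw, hsum, hr2⟩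

/-- The abstract inequality. -/
lemma core {J α : Type} [Fintype J] [DecidableEq J] [DecidableEq α] (A : Finset α)
    (hne : A.Nonempty) (ι : J → Type) [∀ j, Fintype (ι j)]
    (U : ∀ j, α → ι j → ℝ) (f : ∀ j, ι j → ℝ) (t : J → ℝ) (ht : ∀ j, 0 < t j)
    (hU : ∀ j, ∀ a ∈ A, ∑ k, U j a k * U j a k = 1)
    (hf : ∀ j, ∀ a ∈ A, ∑ k, f j k * U j a k = t j)
    (hff : ∀ j, ∑ k, f j k * f j k = t j)
    (hort : ∀ a ∈ A, ∀ b ∈ A, a ≠ b → ∃ j, ∑ k, U j a k * U j b k = 0)
    (Q : J → ℝ)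
    (hQ : ∀ j, Q j = (∑ a ∈ A, ∑ b ∈ A, ∑ k, U j a k * U j b k) / (A.card : ℝ)^2 - t j) :
    (∀ j, 0 ≤ Q j) ∧
      (A.card : ℝ) * ∏ j, t j ≤ Real.exp (-(1/2) * ∑ j, Q j) := by
  have hb := fun j => block A hne (U j) (f j) (t j) (hU j) (hf j) (hff j) (Q j) (hQ j)
  choose w r hQ0 hQ1 hwU hww hfw hsum hr2 using hb
  refine ⟨hQ0, ?_⟩
  have hN : (0:ℝ) < A.card := by exact_mod_cast hne.card_pos
  set N : ℝ := (A.card : ℝ) with hNdef
  -- handle
  set h : ∀ j, ι j → ℝ := fun j k => f j k + t j / 2 * w j k with hh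
  have hhU : ∀ j, ∀ a ∈ A, ∑ k, h j k * U j a k = t j * (1 + r j a / 2) := by
    intro j a ha
    have : ∀ k, h j k * U j a k = f j k * U j a k + t j / 2 * (w j k * U j a k) :=
      fun k => by simp only [hh]; ring
    simp only [this, Finset.sum_add_distrib, ← Finset.mul_sum, hf j a ha, hwU j a ha]
    ring
  have hhh : ∀ j, ∑ k, h j k * h j k = t j * (1 + t j * Q j / 4) := by
    intro j
    have : ∀ k, h j k * h j k = f j k * f j k + t j * (f j k * w j k)
        + t j ^2 / 4 * (w j k * w j k) := fun k => by simp only [hh]; ring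
    simp only [this, Finset.sum_add_distrib, ← Finset.mul_sum, hff j, hfw j, hww j]
    ring
  have hB := bessel A (fun a (k : ∀ j, ι j) => ∏ j, U j a (k j)) (fun k => ∏ j, h j (k j)) (by
    intro a ha b hb
    rw [tens]
    split_ifs with hab
    · subst hab
      exact Finset.prod_eq_one fun j _ => hU j a ha
    · obtain ⟨j, hj⟩ := hort a ha b hb hab
      exact Finset.prod_eq_zero (Finset.mem_univ j) hj)
  simp only [tens] at hB
  rw [Finset.prod_congr rfl (fun j _ => hhh j)] at hB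
  have hB2 : ∑ a ∈ A, (∏ j, t j * (1 + r j a / 2)) ^ 2 ≤ ∏ j, t j * (1 + t j * Q j / 4) := by
    refine le_trans (le_of_eq ?_) hB
    refine Finset.sum_congr rfl fun a ha => ?_
    congr 1
    exact Finset.prod_congr rfl fun j _ => (hhU j a ha).symm
  -- lower bound of each term
  have hr1 : ∀ j, ∀ a ∈ A, |r j a| ≤ 1 := by
    intro j a ha
    have h1 := hr2 j a ha
    have h2 := hQ0 j
    have h3 := hQ1 j
    have h4 := ht j
    rw [abs_le]
    constructor <;> nlinarith
  have hlow : ∀ a ∈ A, (∏ j, t j) ^ 2 * Real.exp (∑ j, (r j a - Q j * (1 - t j) / 2))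
      ≤ (∏ j, t j * (1 + r j a / 2)) ^ 2 := by
    intro a ha
    rw [Real.exp_sum, ← Finset.prod_pow, ← Finset.prod_pow, ← Finset.prod_mul_distrib]
    refine Finset.prod_le_prod (fun j _ => by positivity) fun j _ => ?_
    have h1 := abs_le.1 (hr1 j a ha)
    have h2 := exp_le (r j a / 2) (by linarith [h1.1]) (by linarith [h1.2])
    have h3 : Real.exp (r j a - Q j * (1 - t j) / 2) ≤ (1 + r j a / 2) ^ 2 := by
      have : Real.exp (r j a - Q j * (1 - t j) / 2)
          ≤ Real.exp (r j a / 2 - (r j a / 2)^2) ^ 2 := by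
        rw [← Real.exp_nat_mul]
        refine Real.exp_le_exp.2 ?_
        have := hr2 j a ha
        push_cast
        nlinarith
      refine this.trans ?_
      exact pow_le_pow_left₀ (Real.exp_pos _).le h2 2
    rw [mul_pow]
    exact mul_le_mul_of_nonneg_left h3 (sq_nonneg _)
  set M : ℝ := ∑ j, (Q j - Q j * (1 - t j) / 2) with hM
  have hmean : ∑ a ∈ A, ∑ j, (r j a - Q j * (1 - t j) / 2) = N * M := by
    rw [Finset.sum_comm, hM, Finset.mul_sum]
    refine Finset.sum_congr rfl fun j _ => ?_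
    rw [Finset.sum_sub_distrib, hsum j, Finset.sum_const, nsmul_eq_mul]
    ring
  have hexp : N * Real.exp M ≤ ∑ a ∈ A, Real.exp (∑ j, (r j a - Q j * (1 - t j) / 2)) := by
    have h1 : ∀ a ∈ A, Real.exp M * (1 + (∑ j, (r j a - Q j * (1 - t j) / 2) - M))
        ≤ Real.exp (∑ j, (r j a - Q j * (1 - t j) / 2)) := by
      intro a _
      have h2 := Real.add_one_le_exp (∑ j, (r j a - Q j * (1 - t j) / 2) - M)
      have h3 : Real.exp (∑ j, (r j a - Q j * (1 - t j) / 2))
          = Real.exp M * Real.exp (∑ j, (r j a - Q j * (1 - t j) / 2) - M) := by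
        rw [← Real.exp_add]; congr 1; ring
      rw [h3]
      exact mul_le_mul_of_nonneg_left (by linarith) (Real.exp_pos _).le
    refine le_trans (le_of_eq ?_) (Finset.sum_le_sum h1)
    rw [← Finset.mul_sum]
    simp only [Finset.sum_add_distrib, Finset.sum_sub_distrib, Finset.sum_const, nsmul_eq_mul] at hmean ⊢
    rw [hmean]
    simp only [← hNdef]
    ring
  have hP : 0 < ∏ j, t j := Finset.prod_pos fun j _ => ht j
  have hup : ∏ j, t j * (1 + t j * Q j / 4) ≤ (∏ j, t j) * Real.exp (∑ j, t j * Q j / 4) := by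
    rw [Real.exp_sum, ← Finset.prod_mul_distrib]
    refine Finset.prod_le_prod (fun j _ => ?_) fun j _ => ?_
    · have := mul_nonneg (ht j).le (hQ0 j)
      exact mul_nonneg (ht j).le (by linarith)
    · refine mul_le_mul_of_nonneg_left ?_ (ht j).le
      have := Real.add_one_le_exp (t j * Q j / 4)
      linarith
  have hall : (∏ j, t j) ^ 2 * (N * Real.exp M) ≤ (∏ j, t j) * Real.exp (∑ j, t j * Q j / 4) := by
    calc (∏ j, t j) ^ 2 * (N * Real.exp M)
        ≤ (∏ j, t j) ^ 2 * ∑ a ∈ A, Real.exp (∑ j, (r j a - Q j * (1 - t j) / 2)) :=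
          mul_le_mul_of_nonneg_left hexp (sq_nonneg _)
      _ = ∑ a ∈ A, (∏ j, t j) ^ 2 * Real.exp (∑ j, (r j a - Q j * (1 - t j) / 2)) := by
          rw [Finset.mul_sum]
      _ ≤ ∑ a ∈ A, (∏ j, t j * (1 + r j a / 2)) ^ 2 := Finset.sum_le_sum hlow
      _ ≤ _ := hB2
      _ ≤ _ := hup
  have hall2 : N * ∏ j, t j ≤ Real.exp (∑ j, t j * Q j / 4) * Real.exp (-M) := by
    have h1 : (∏ j, t j) * (N * ∏ j, t j) * Real.exp M
        ≤ (∏ j, t j) * Real.exp (∑ j, t j * Q j / 4) := by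
      refine le_trans (le_of_eq ?_) hall; ring
    have h2 : (N * ∏ j, t j) * Real.exp M ≤ Real.exp (∑ j, t j * Q j / 4) := by
      have h3 : (∏ j, t j) * ((N * ∏ j, t j) * Real.exp M)
        ≤ (∏ j, t j) * Real.exp (∑ j, t j * Q j / 4) := by
        refine le_trans (le_of_eq ?_) h1; ring
      exact le_of_mul_le_mul_left h3 hP
    rw [Real.exp_neg, ← div_eq_mul_inv, le_div_iff₀ (Real.exp_pos _)]
    exact h2
  refine hall2.trans ?_
  rw [← Real.exp_add]
  refine Real.exp_le_exp.2 ?_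
  rw [hM, ← Finset.sum_neg_distrib, ← Finset.sum_add_distrib, Finset.mul_sum]
  refine Finset.sum_le_sum fun j _ => ?_
  have h1 := mul_nonneg (ht j).le (hQ0 j)
  nlinarith

lemma cubic : 8 * Real.cos (Real.pi / 7) ^ 3 - 4 * Real.cos (Real.pi / 7) ^ 2
    - 4 * Real.cos (Real.pi / 7) + 1 = 0 := by
  set c := Real.cos (Real.pi / 7) with hc
  have hc0 : 0 < c := Real.cos_pos_of_mem_Ioo ⟨by linarith [Real.pi_pos], by linarith [Real.pi_pos]⟩
  have h3 : Real.cos (3 * (Real.pi / 7)) = 4 * c ^ 3 - 3 * c := Real.cos_three_mul _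
  have h2 : Real.cos (2 * (Real.pi / 7)) = 2 * c ^ 2 - 1 := Real.cos_two_mul _
  have h4 : Real.cos (2 * (2 * (Real.pi / 7))) = 2 * (2 * c ^ 2 - 1) ^ 2 - 1 := by
    rw [Real.cos_two_mul, h2]
  have h5 : Real.cos (2 * (2 * (Real.pi / 7))) = - Real.cos (3 * (Real.pi / 7)) := by
    rw [← Real.cos_pi_sub]; congr 1; ring
  rw [h4, h3] at h5
  have : (c + 1) * (8 * c ^ 3 - 4 * c ^ 2 - 4 * c + 1) = 0 := by nlinarith
  rcases mul_eq_zero.1 this with h | h
  · linarith
  · exact h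

/-- cos(2 pi x / 7) for x in ZMod 7. -/
noncomputable def X (d : ZMod 7) : ℝ := Real.cos (2 * Real.pi * (d.val : ℝ) / 7)

lemma cos_sub_val (x y : ZMod 7) :
    Real.cos (2 * Real.pi * (x.val : ℝ) / 7 - 2 * Real.pi * (y.val : ℝ) / 7) = X (x - y) := by
  have h : (((x.val : ℤ) - (y.val : ℤ) : ℤ) : ZMod 7) = (((x - y).val : ℤ) : ZMod 7) := by
    push_cast
    simp
  rw [ZMod.intCast_eq_intCast_iff_dvd_sub] at h
  obtain ⟨k, hk⟩ := h
  have hk' : (((x - y).val : ℝ)) - ((x.val : ℝ) - (y.val : ℝ)) = 7 * (k : ℝ) := by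
    exact_mod_cast hk
  unfold X
  have : 2 * Real.pi * ((x - y).val : ℝ) / 7
      = 2 * Real.pi * (x.val : ℝ) / 7 - 2 * Real.pi * (y.val : ℝ) / 7 + k * (2 * Real.pi) := by
    have e : ((x - y).val : ℝ) = (x.val : ℝ) - (y.val : ℝ) + 7 * k := by linarith
    rw [e]; ring
  rw [this, Real.cos_add_int_mul_two_pi]

lemma X_vals : X 0 = 1 ∧ X 1 = 2 * Real.cos (Real.pi / 7) ^ 2 - 1 ∧
    X 2 = 2 * (2 * Real.cos (Real.pi / 7) ^ 2 - 1) ^ 2 - 1 ∧ X 3 = - Real.cos (Real.pi / 7) ∧
    X 4 = - Real.cos (Real.pi / 7) ∧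
    X 5 = 2 * (2 * Real.cos (Real.pi / 7) ^ 2 - 1) ^ 2 - 1 ∧
    X 6 = 2 * Real.cos (Real.pi / 7) ^ 2 - 1 := by
  have v0 : (0 : ZMod 7).val = 0 := rfl
  have v1 : (1 : ZMod 7).val = 1 := rfl
  have v2 : (2 : ZMod 7).val = 2 := rfl
  have v3 : (3 : ZMod 7).val = 3 := rfl
  have v4 : (4 : ZMod 7).val = 4 := rfl
  have v5 : (5 : ZMod 7).val = 5 := rfl
  have v6 : (6 : ZMod 7).val = 6 := rfl
  have c1 : Real.cos (2 * (Real.pi / 7)) = 2 * Real.cos (Real.pi / 7) ^ 2 - 1 := Real.cos_two_mul _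
  have c2 : Real.cos (2 * (2 * (Real.pi / 7))) = 2 * (2 * Real.cos (Real.pi / 7) ^ 2 - 1) ^ 2 - 1 := by
    rw [Real.cos_two_mul, c1]
  have c3 : Real.cos (6 * (Real.pi / 7)) = - Real.cos (Real.pi / 7) := by
    rw [← Real.cos_pi_sub]; congr 1; ring
  refine ⟨?_, ?_, ?_, ?_, ?_, ?_, ?_⟩
  · simp [X, v0]
  · rw [← c1]; unfold X; rw [v1]; congr 1; push_cast; ring
  · rw [← c2]; unfold X; rw [v2]; congr 1; push_cast; ring
  · rw [← c3]; unfold X; rw [v3]; congr 1; push_cast; ring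
  · rw [← c3]; unfold X; rw [v4, ← Real.cos_neg (6 * (Real.pi / 7)),
      ← Real.cos_add_two_pi (-(6 * (Real.pi / 7)))]; congr 1; push_cast; ring
  · rw [← c2]; unfold X; rw [v5, ← Real.cos_neg (2 * (2 * (Real.pi / 7))),
      ← Real.cos_add_two_pi (-(2 * (2 * (Real.pi / 7))))]; congr 1; push_cast; ring
  · rw [← c1]; unfold X; rw [v6, ← Real.cos_neg (2 * (Real.pi / 7)),
      ← Real.cos_add_two_pi (-(2 * (Real.pi / 7)))]; congr 1; push_cast; ring

lemma cpos : 1/2 < Real.cos (Real.pi / 7) := by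
  rw [← Real.cos_pi_div_three]
  exact Real.cos_lt_cos_of_nonneg_of_le_pi (by positivity) (by linarith [Real.pi_pos])
    (by linarith [Real.pi_pos])

lemma gram_id (d : ZMod 7) :
    (1 + Real.cos (Real.pi / 7)) / (7 * Real.cos (Real.pi / 7))
      + 2 * (1 + X 1 / Real.cos (Real.pi / 7)) / 7 * X d
      + 2 * (1 + X 2 / Real.cos (Real.pi / 7)) / 7 * (2 * X d ^ 2 - 1) = wt d := by
  obtain ⟨x0, x1, x2, x3, x4, x5, x6⟩ := X_vals
  have hc := cubic
  have hc0 : 0 < Real.cos (Real.pi / 7) := by linarith [cpos]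
  set c := Real.cos (Real.pi / 7) with hcdef
  have hcne : c ≠ 0 := hc0.ne'
  have e3 : c ^ 3 = (4 * c ^ 2 + 4 * c - 1) / 8 := by linarith
  have w0 : wt 0 = 1 := by simp [wt]
  have w1 : wt 1 = 1 / (2 * c) := by unfold wt; rw [if_neg (by decide), if_pos (Or.inl rfl)]
  have w2 : wt 2 = 0 := by unfold wt; rw [if_neg (by decide), if_neg (by decide)]
  have w3 : wt 3 = 0 := by unfold wt; rw [if_neg (by decide), if_neg (by decide)]
  have w4 : wt 4 = 0 := by unfold wt; rw [if_neg (by decide), if_neg (by decide)]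
  have w5 : wt 5 = 0 := by unfold wt; rw [if_neg (by decide), if_neg (by decide)]
  have w6 : wt 6 = 1 / (2 * c) := by
    unfold wt; rw [if_neg (by decide), if_pos (Or.inr (by decide))]
  have hx2 : X 2 = c - 1/2 - (2 * c ^ 2 - 1) := by
    rw [x2]
    have e4 : c ^ 4 = (4 * c ^ 3 + 4 * c ^ 2 - c) / 8 := by
      have : c ^ 4 = c * c ^ 3 := by ring
      rw [this, e3]; ring_nf; rw [e3]; ring
    have : 2 * (2 * c ^ 2 - 1) ^ 2 - 1 = 8 * c ^ 4 - 8 * c ^ 2 + 1 := by ring
    rw [this, e4, e3]; ring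
  have hx5 : X 5 = X 2 := by rw [x5, x2]
  have red : ∀ z : ZMod 7, z = 0 ∨ z = 1 ∨ z = 2 ∨ z = 3 ∨ z = 4 ∨ z = 5 ∨ z = 6 := by decide
  have shape : ∀ x w : ℝ, (1 + c) + 2 * (c + X 1) * x + 2 * (c + X 2) * (2 * x ^ 2 - 1)
      = 7 * c * w → (1 + c) / (7 * c) + 2 * (1 + X 1 / c) / 7 * x
      + 2 * (1 + X 2 / c) / 7 * (2 * x ^ 2 - 1) = w := by
    intro x w h
    have : (1 + c) / (7 * c) + 2 * (1 + X 1 / c) / 7 * x
      + 2 * (1 + X 2 / c) / 7 * (2 * x ^ 2 - 1) = ((1 + c) + 2 * (c + X 1) * x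
        + 2 * (c + X 2) * (2 * x ^ 2 - 1)) / (7 * c) := by
      field_simp
    rw [this, h]; field_simp
  have cw : 7 * c * (1 / (2 * c)) = 7 / 2 := by field_simp
  have k1 : (1 + c) + 2 * (c + X 1) * X 1 + 2 * (c + X 2) * (2 * X 1 ^ 2 - 1)
      = 7 * c * (1 / (2 * c)) := by
    rw [cw, hx2, x1]; linear_combination (1/2 + 5 * c + 2 * c ^ 2 - 4 * c ^ 3) * hc
  have k2 : (1 + c) + 2 * (c + X 1) * X 2 + 2 * (c + X 2) * (2 * X 2 ^ 2 - 1)
      = 7 * c * 0 := by
    rw [hx2, x1]; linear_combination (-1/2 - 2 * c + 6 * c ^ 2 - 4 * c ^ 3) * hc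
  have k3 : (1 + c) + 2 * (c + X 1) * (-c) + 2 * (c + X 2) * (2 * (-c) ^ 2 - 1)
      = 7 * c * 0 := by
    rw [hx2, x1]; linear_combination (- c) * hc
  rcases red d with h | h | h | h | h | h | h <;> subst h
  · rw [w0, x0]; refine shape 1 1 ?_; rw [hx2, x1]; ring
  · rw [w1]; exact shape _ _ k1
  · rw [w2]; exact shape _ _ k2
  · rw [w3, x3]; exact shape _ _ k3
  · rw [w4, x4]; exact shape _ _ k3
  · rw [w5, hx5]; exact shape _ _ k2
  · rw [w6, x6, ← x1]; exact shape _ _ k1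

/-- The vectors of the Lovasz umbrella for the complement. -/
noncomputable def u (x : ZMod 7) : Fin 5 → ℝ :=
  ![Real.sqrt ((1 + Real.cos (Real.pi / 7)) / (7 * Real.cos (Real.pi / 7))),
    Real.sqrt (2 * (1 + X 1 / Real.cos (Real.pi / 7)) / 7) *
      Real.cos (2 * Real.pi * (x.val : ℝ) / 7),
    Real.sqrt (2 * (1 + X 1 / Real.cos (Real.pi / 7)) / 7) *
      Real.sin (2 * Real.pi * (x.val : ℝ) / 7),
    Real.sqrt (2 * (1 + X 2 / Real.cos (Real.pi / 7)) / 7) *
      Real.cos (2 * (2 * Real.pi * (x.val : ℝ) / 7)),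
    Real.sqrt (2 * (1 + X 2 / Real.cos (Real.pi / 7)) / 7) *
      Real.sin (2 * (2 * Real.pi * (x.val : ℝ) / 7))]

lemma u_gram (x y : ZMod 7) : ∑ k, u x k * u y k = wt (x - y) := by
  have hc0 : 0 < Real.cos (Real.pi / 7) := by linarith [cpos]
  have hx1 : 0 ≤ 2 * (1 + X 1 / Real.cos (Real.pi / 7)) / 7 := by
    obtain ⟨-, x1, -⟩ := X_vals
    have : 0 ≤ 1 + X 1 / Real.cos (Real.pi / 7) := by
      rw [x1, ← sub_nonneg, sub_zero]
      have e : 1 + (2 * Real.cos (Real.pi / 7) ^ 2 - 1) / Real.cos (Real.pi / 7)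
        = (2 * Real.cos (Real.pi / 7) - 1) * (Real.cos (Real.pi / 7) + 1)
          / Real.cos (Real.pi / 7) := by field_simp; ring
      rw [e]
      have := cpos
      exact div_nonneg (mul_nonneg (by linarith) (by linarith)) hc0.le
    positivity
  have hx2 : 0 ≤ 2 * (1 + X 2 / Real.cos (Real.pi / 7)) / 7 := by
    obtain ⟨-, -, x2, -⟩ := X_vals
    have : 0 ≤ 1 + X 2 / Real.cos (Real.pi / 7) := by
      have h4 : - Real.cos (Real.pi / 7) ≤ X 2 := by
        have h5 : X 2 = - Real.cos (3 * (Real.pi / 7)) := by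
          rw [← Real.cos_pi_sub]; unfold X
          have v2 : (2 : ZMod 7).val = 2 := rfl
          rw [v2]; congr 1; push_cast; ring
        rw [h5]
        have := Real.cos_le_cos_of_nonneg_of_le_pi (x := Real.pi / 7) (y := 3 * (Real.pi / 7))
          (by positivity) (by linarith [Real.pi_pos]) (by linarith [Real.pi_pos])
        linarith
      have : -1 ≤ X 2 / Real.cos (Real.pi / 7) := by
        rw [le_div_iff₀ hc0]; linarith
      linarith
    positivity
  have ht : 0 ≤ (1 + Real.cos (Real.pi / 7)) / (7 * Real.cos (Real.pi / 7)) := by positivity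
  rw [← gram_id (x - y), ← cos_sub_val x y]
  have e2 : 2 * Real.cos (2 * Real.pi * (x.val : ℝ) / 7 - 2 * Real.pi * (y.val : ℝ) / 7) ^ 2 - 1
      = Real.cos (2 * (2 * Real.pi * (x.val : ℝ) / 7) - 2 * (2 * Real.pi * (y.val : ℝ) / 7)) := by
    rw [← Real.cos_two_mul]; congr 1; ring
  rw [e2, Real.cos_sub, Real.cos_sub]
  rw [Fin.sum_univ_five]
  simp only [u, Matrix.cons_val_zero, Matrix.cons_val_one, Matrix.cons_val]
  have s0 := Real.mul_self_sqrt ht
  have s1 := Real.mul_self_sqrt hx1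
  have s2 := Real.mul_self_sqrt hx2
  set q0 := Real.sqrt ((1 + Real.cos (Real.pi / 7)) / (7 * Real.cos (Real.pi / 7)))
  set q1 := Real.sqrt (2 * (1 + X 1 / Real.cos (Real.pi / 7)) / 7)
  set q2 := Real.sqrt (2 * (1 + X 2 / Real.cos (Real.pi / 7)) / 7)
  rw [← s0, ← s1, ← s2]
  ring

lemma sum_wt (y : ZMod 7) : ∑ x : ZMod 7, wt (x - y) = 7 * (1 / C2) := by
  have h : ∑ x : ZMod 7, wt (x - y) = ∑ z : ZMod 7, wt z :=
    Fintype.sum_equiv (Equiv.subRight y) _ _ fun x => rfl
  rw [h]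
  have hc0 : 0 < Real.cos (Real.pi / 7) := by linarith [cpos]
  have w0 : wt 0 = 1 := by simp [wt]
  have w1 : wt 1 = 1 / (2 * Real.cos (Real.pi / 7)) := by
    unfold wt; rw [if_neg (by decide), if_pos (Or.inl rfl)]
  have w2 : wt 2 = 0 := by unfold wt; rw [if_neg (by decide), if_neg (by decide)]
  have w3 : wt 3 = 0 := by unfold wt; rw [if_neg (by decide), if_neg (by decide)]
  have w4 : wt 4 = 0 := by unfold wt; rw [if_neg (by decide), if_neg (by decide)]
  have w5 : wt 5 = 0 := by unfold wt; rw [if_neg (by decide), if_neg (by decide)]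
  have w6 : wt 6 = 1 / (2 * Real.cos (Real.pi / 7)) := by
    unfold wt; rw [if_neg (by decide), if_pos (Or.inr (by decide))]
  have e : ∑ z : ZMod 7, wt z = wt 0 + wt 1 + wt 2 + wt 3 + wt 4 + wt 5 + wt 6 :=
    Fin.sum_univ_seven (fun z : Fin 7 => wt (z : ZMod 7))
  rw [e, w0, w1, w2, w3, w4, w5, w6]
  unfold C2
  field_simp
  ring

/-- The mean of the seven vectors. -/
noncomputable def f0 (k : Fin 5) : ℝ := (∑ x : ZMod 7, u x k) / 7

lemma f0_u (y : ZMod 7) : ∑ k, f0 k * u y k = 1 / C2 := by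
  have : ∑ k, f0 k * u y k = (∑ x : ZMod 7, ∑ k, u x k * u y k) / 7 := by
    rw [Finset.sum_comm, Finset.sum_div]
    refine Finset.sum_congr rfl fun k _ => ?_
    rw [← Finset.sum_mul]; unfold f0; ring
  rw [this]
  simp only [u_gram]
  rw [sum_wt]; ring

lemma f0_f0 : ∑ k, f0 k * f0 k = 1 / C2 := by
  have : ∑ k, f0 k * f0 k = (∑ x : ZMod 7, ∑ k, f0 k * u x k) / 7 := by
    rw [Finset.sum_comm, Finset.sum_div]
    refine Finset.sum_congr rfl fun k _ => ?_
    rw [← Finset.mul_sum]; unfold f0; ring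
  rw [this]
  simp only [f0_u]
  simp

lemma wt_zero_of (d : ZMod 7) (h : ¬ (d = -1 ∨ d = 0 ∨ d = 1)) : wt d = 0 := by
  push Not at h
  unfold wt
  rw [if_neg h.2.1, if_neg]
  push Not
  exact ⟨h.2.2, h.1⟩

/-- Let A be a nonempty subset of F_7^n in which no two distinct elements differ by a vector of
`{-1,0,1}^n`, and let p be any partition of the coordinates into blocks. Then every block mean
kappa is at least C_2^(-(size of the block)), and A has at most
C_2^n * exp(-(1/2) * (sum over the blocks of kappa - C_2^(-(size of the block)))) elements. -/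
theorem main (n r : ℕ) (p : Fin n → Fin r) (A : Finset (Fin n → ZMod 7)) (hne : A.Nonempty)
    (hA : ∀ a ∈ A, ∀ b ∈ A,
      (∀ i, a i - b i = -1 ∨ a i - b i = 0 ∨ a i - b i = 1) → a = b) :
    (∀ j, (1 / C2) ^ (univ.filter (fun i => p i = j)).card ≤ kappa p A j) ∧
      (A.card : ℝ) ≤ C2 ^ n * Real.exp (-(1/2) *
        ∑ j, (kappa p A j - (1 / C2) ^ (univ.filter (fun i => p i = j)).card)) := by
  classical
  have hc0 : 0 < Real.cos (Real.pi / 7) := by linarith [cpos]
  have hC : 0 < C2 := by unfold C2; positivity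
  have hprod : ∀ (j : Fin r) (F : Fin n → ℝ),
      ∏ i : {i // p i = j}, F i.1 = ∏ i ∈ univ.filter (fun i => p i = j), F i := by
    intro j F
    rw [Finset.prod_subtype (univ.filter (fun i => p i = j)) (p := fun i => p i = j)]
    intro x; simp
  have hUU : ∀ (j : Fin r) (a b : Fin n → ZMod 7),
      ∑ k : {i // p i = j} → Fin 5, (∏ i, u (a i.1) (k i)) * (∏ i, u (b i.1) (k i))
        = ∏ i ∈ univ.filter (fun i => p i = j), wt (a i - b i) := by
    intro j a b
    rw [tens (fun _ : {i // p i = j} => Fin 5) (fun i x => u (a i.1) x) (fun i x => u (b i.1) x)]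
    simp only [u_gram]
    exact hprod j (fun i => wt (a i - b i))
  have hcard : ∀ (j : Fin r) (c : ℝ), ∏ _i : {i // p i = j}, c
      = c ^ (univ.filter (fun i => p i = j)).card := by
    intro j c
    rw [hprod j (fun _ => c), Finset.prod_const]
  have hmain := core A hne (fun j : Fin r => ({i // p i = j} → Fin 5))
    (fun j a k => ∏ i, u (a i.1) (k i)) (fun j k => ∏ i, f0 (k i))
    (fun j => (1 / C2) ^ (univ.filter (fun i => p i = j)).card)
    (fun j => by positivity)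
    (by
      intro j a _
      rw [hUU]
      exact Finset.prod_eq_one fun i _ => by simp [wt])
    (by
      intro j a _
      rw [tens (fun _ : {i // p i = j} => Fin 5) (fun _ x => f0 x) (fun i x => u (a i.1) x)]
      simp only [f0_u]
      exact hcard j _)
    (by
      intro j
      rw [tens (fun _ : {i // p i = j} => Fin 5) (fun _ x => f0 x) (fun _ x => f0 x)]
      simp only [f0_f0]
      exact hcard j _)
    (by
      intro a ha b hb hab
      have h1 : ∃ i, ¬ (a i - b i = -1 ∨ a i - b i = 0 ∨ a i - b i = 1) := by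
        by_contra hcon
        exact hab (hA a ha b hb fun i => by
          by_contra hh
          exact hcon ⟨i, hh⟩)
      obtain ⟨i, hi⟩ := h1
      refine ⟨p i, ?_⟩
      rw [hUU]
      exact Finset.prod_eq_zero (i := i) (by simp) (wt_zero_of _ hi))
    (fun j => kappa p A j - (1 / C2) ^ (univ.filter (fun i => p i = j)).card)
    (by
      intro j
      simp only [hUU]
      rfl)
  obtain ⟨h1, h2⟩ := hmain
  refine ⟨fun j => by linarith [h1 j], ?_⟩
  have hsumcard : ∑ j : Fin r, (univ.filter (fun i => p i = j)).card = n := by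
    have := Finset.card_eq_sum_card_fiberwise (f := p) (s := (univ : Finset (Fin n)))
      (t := (univ : Finset (Fin r))) (fun _ _ => Finset.mem_univ _)
    simpa using this.symm
  rw [Finset.prod_pow_eq_pow_sum, hsumcard, one_div, inv_pow, ← div_eq_mul_inv,
    div_le_iff₀ (by positivity)] at h2
  rw [mul_comm]
  simpa [one_div, inv_pow] using h2

end Pool.Agent.H52.Stab
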