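import Pool.Agent.H52.C7Ent

set_option autoImplicit false

namespace Pool.Agent.H52.Tup

open Finset
open Pool.Agent.H52.Letter (IsRep prod_le coord C2 c_low)
open Pool.Agent.H52.Ent (pr p1 kl pr_nonneg p1_nonneg sum_pr sum_p1 log_le chain)

/-- classes of an edge and three further cliques -/
def cls (d : ZMod 7) : Fin 4 :=
  if d = 0 ∨ d = 1 then 0 else if d = 2 ∨ d = 3 then 1 else if d = 4 ∨ d = 5 then 2 else 3

lemma edge_rep (x : ZMod 7) : IsRep (fun z => if z = x ∨ z = x + 1 then 1 else 0) := by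
  refine ⟨4, fun z k => if cls (z - x) = k then 1 else 0, fun k => if k = 0 then 1 else 0,
    ?_, ?_, ?_, ?_⟩
  · intro z; simp
  · intro z w hzw
    have h1 : ∀ d e : ZMod 7, ¬ (d - e = -1 ∨ d - e = 0 ∨ d - e = 1) → cls d ≠ cls e := by decide
    have h2 : cls (z - x) ≠ cls (w - x) := by
      apply h1
      have e1 : (z - x) - (w - x) = z - w := by ring
      rw [e1]; exact hzw
    have : ∀ k : Fin 4, (if cls (z - x) = k then (1:ℝ) else 0) * (if cls (w - x) = k then 1 else 0)
        = 0 := by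
      intro k
      by_cases h3 : cls (z - x) = k
      · have h5 : ¬ cls (w - x) = k := fun h4 => h2 (h3.trans h4.symm)
        rw [if_neg h5, mul_zero]
      · rw [if_neg h3, zero_mul]
    simp only [this, Finset.sum_const_zero]
  · simp
  · intro z
    have h1 : ∀ d : ZMod 7, cls d = 0 ↔ (d = 0 ∨ d = 1) := by decide
    have h2 : (z = x ∨ z = x + 1) ↔ cls (z - x) = 0 := by
      rw [h1, sub_eq_zero, sub_eq_iff_eq_add, add_comm 1 x]
    by_cases h3 : z = x ∨ z = x + 1
    · have h4 := h2.1 h3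
      simp only [if_pos h3, h4]; simp
    · have h4 : cls (z - x) ≠ 0 := fun h => h3 (h2.2 h)
      simp only [if_neg h3]; simp [h4]

lemma C2_gt : 1 ≤ C2 := by
  have h := c_low
  unfold C2
  rw [le_div_iff₀ (by linarith)]
  linarith

/-- The cube version of the letter bound. -/
lemma cube {n : ℕ} (A B : Finset (Fin n → ZMod 7))
    (hA : ∀ a ∈ A, ∀ b ∈ A,
      (∀ i, a i - b i = -1 ∨ a i - b i = 0 ∨ a i - b i = 1) → a = b)
    (hBA : B ⊆ A) (hne : B.Nonempty) (S : Finset (Fin n)) (x : Fin n → ZMod 7)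
    (hx : ∀ a ∈ B, ∀ i ∈ S, a i = x i ∨ a i = x i + 1) (y : Fin n → ZMod 7) :
    ∑ i ∈ Sᶜ, (((B.filter (fun a => a i = y i)).card : ℝ) / B.card - 1/7)^2
      ≤ 10 * ((Sᶜ).card * Real.log C2 - Real.log B.card) := by
  have hN : (0:ℝ) < B.card := by exact_mod_cast hne.card_pos
  have hC1 := C2_gt
  have hC : 0 < C2 := by linarith
  have hlogC : 0 ≤ Real.log C2 := Real.log_nonneg hC1
  have hq := fun i => coord B hne (fun a => a i) (y i)
  choose qq hq1 hq2 hq3 using hq
  set q : Fin n → ZMod 7 → ℝ := fun i => if i ∈ S then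
    (fun z => if z = x i ∨ z = x i + 1 then 1 else 0) else qq i with hqdef
  have hrep : ∀ i, IsRep (q i) := by
    intro i
    by_cases hi : i ∈ S
    · simp only [hqdef, if_pos hi]; exact edge_rep (x i)
    · simp only [hqdef, if_neg hi]; exact hq1 i
  have hle := prod_le A hA q hrep
  have hnn : ∀ i z, 0 ≤ q i z := by
    intro i z
    obtain ⟨m, v, h, -, -, h3, h4⟩ := hrep i
    rw [h4 z]; exact div_nonneg (sq_nonneg _) h3.le
  have hleB : ∑ a ∈ B, ∏ i, q i (a i) ≤ 1 :=
    (Finset.sum_le_sum_of_subset_of_nonneg hBA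
      fun a _ _ => Finset.prod_nonneg fun i _ => hnn i _).trans hle
  set L : (Fin n → ZMod 7) → ℝ := fun a => ∑ i ∈ Sᶜ, Real.log (qq i (a i)) with hL
  have hprod : ∀ a ∈ B, ∏ i, q i (a i) = Real.exp (L a) := by
    intro a ha
    rw [hL, Real.exp_sum, ← Finset.prod_mul_prod_compl S]
    have h1 : ∏ i ∈ S, q i (a i) = 1 := by
      refine Finset.prod_eq_one fun i hi => ?_
      simp only [hqdef, if_pos hi]
      rw [if_pos (hx a ha i hi)]
    rw [h1, one_mul]
    refine Finset.prod_congr rfl fun i hi => ?_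
    have hi' : i ∉ S := by simpa using hi
    simp only [hqdef, if_neg hi']
    exact (Real.exp_log (hq2 i a ha)).symm
  rw [Finset.sum_congr rfl hprod] at hleB
  obtain ⟨M, hM⟩ : ∃ M : ℝ, ∑ a ∈ B, L a = B.card * M :=
    ⟨(∑ a ∈ B, L a) / B.card, by field_simp⟩
  have hexp : (B.card : ℝ) * Real.exp M ≤ ∑ a ∈ B, Real.exp (L a) := by
    have h1 : ∀ a ∈ B, Real.exp M * (1 + (L a - M)) ≤ Real.exp (L a) := by
      intro a _
      have h2 := Real.add_one_le_exp (L a - M)
      have h3 : Real.exp (L a) = Real.exp M * Real.exp (L a - M) := by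
        rw [← Real.exp_add]; congr 1; ring
      rw [h3]
      exact mul_le_mul_of_nonneg_left (by linarith) (Real.exp_pos _).le
    refine le_trans (le_of_eq ?_) (Finset.sum_le_sum h1)
    rw [← Finset.mul_sum, Finset.sum_add_distrib, Finset.sum_sub_distrib, hM]
    simp only [Finset.sum_const, nsmul_eq_mul]
    ring
  set V : ℝ := ∑ i ∈ Sᶜ, (((B.filter (fun a => a i = y i)).card : ℝ) / B.card - 1/7)^2 with hV
  have hMlow : ((Sᶜ).card : ℝ) * Real.log (1 / C2) + 1/10 * V ≤ M := by
    have h1 : (B.card : ℝ) * (((Sᶜ).card : ℝ) * Real.log (1 / C2) + 1/10 * V) ≤ B.card * M := by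
      rw [← hM]
      have h2 : ∑ a ∈ B, L a = ∑ i ∈ Sᶜ, ∑ a ∈ B, Real.log (qq i (a i)) := by
        rw [hL, Finset.sum_comm]
      rw [h2]
      refine le_trans (le_of_eq ?_) (Finset.sum_le_sum fun i _ => hq3 i)
      rw [← Finset.mul_sum, Finset.sum_add_distrib, ← Finset.mul_sum]
      simp [hV]
    exact le_of_mul_le_mul_left h1 hN
  have h3 : (B.card : ℝ) * Real.exp M ≤ 1 := hexp.trans hleB
  have h4 : Real.log B.card + M ≤ 0 := by
    have h5 := Real.log_le_log (by positivity) h3
    rw [Real.log_mul hN.ne' (Real.exp_pos _).ne', Real.log_exp, Real.log_one] at h5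
    exact h5
  have h7 : Real.log (1 / C2) = - Real.log C2 := by rw [one_div, Real.log_inv]
  rw [h7] at hMlow
  linarith


lemma oneT {n : ℕ} (A B : Finset (Fin n → ZMod 7))
    (hA : ∀ a ∈ A, ∀ b ∈ A,
      (∀ i, a i - b i = -1 ∨ a i - b i = 0 ∨ a i - b i = 1) → a = b)
    (hBA : B ⊆ A) (hne : B.Nonempty) (S : Finset (Fin n)) (x : Fin n → ZMod 7)
    (hx : ∀ a ∈ B, ∀ i ∈ S, a i = x i ∨ a i = x i + 1) :
    ∑ j ∈ Sᶜ, ∑ y, p1 B j y * Real.log (7 * p1 B j y)
      ≤ 490 * ((Sᶜ).card * Real.log C2 - Real.log B.card) := by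
  have h1 : ∀ j ∈ Sᶜ, ∑ y, p1 B j y * Real.log (7 * p1 B j y) ≤ ∑ y, 7 * (p1 B j y - 1/7)^2 := by
    intro j _
    refine (Finset.sum_le_sum fun y _ => log_le _ (p1_nonneg B j y)).trans ?_
    rw [Finset.sum_add_distrib, Finset.sum_sub_distrib, sum_p1 B hne j]
    simp only [Finset.sum_const, Finset.card_univ, ZMod.card, nsmul_eq_mul]
    norm_num
  refine (Finset.sum_le_sum h1).trans ?_
  rw [Finset.sum_comm]
  have h2 : ∀ y, ∑ j ∈ Sᶜ, 7 * (p1 B j y - 1/7)^2
      ≤ 70 * ((Sᶜ).card * Real.log C2 - Real.log B.card) := by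
    intro y
    rw [← Finset.mul_sum]
    have h := cube A B hA hBA hne S x hx (fun _ => y)
    have h3 : ∑ j ∈ Sᶜ, (p1 B j y - 1/7)^2
        ≤ 10 * ((Sᶜ).card * Real.log C2 - Real.log B.card) := h
    linarith
  refine (Finset.sum_le_sum fun y _ => h2 y).trans (le_of_eq ?_)
  simp only [Finset.sum_const, Finset.card_univ, ZMod.card, nsmul_eq_mul]
  ring

theorem main (k n : ℕ) (A : Finset (Fin n → ZMod 7)) (hne : A.Nonempty)
    (hA : ∀ a ∈ A, ∀ b ∈ A,
      (∀ i, a i - b i = -1 ∨ a i - b i = 0 ∨ a i - b i = 1) → a = b)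
    (i : Fin k → Fin n) (hi : Function.Injective i) :
    (A.card : ℝ) ≤ 7 ^ k * C2 ^ (n - k) * Real.exp (-(kl A i) -
      1/490 * ∑ j ∈ (univ.image i)ᶜ, (kl A (Fin.cons j i) - kl A i)) := by
  classical
  have hN : (0:ℝ) < A.card := by exact_mod_cast hne.card_pos
  have hC1 := C2_gt
  have hC : 0 < C2 := by linarith
  set S : Finset (Fin n) := univ.image i with hS
  have hcard : (Sᶜ).card = n - k := by
    rw [Finset.card_compl, Fintype.card_fin, hS, Finset.card_image_of_injective _ hi,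
      Finset.card_univ, Fintype.card_fin]
  have h1 : ∀ z, ∑ j ∈ Sᶜ, pr A i z * ∑ y, p1 (A.filter (fun a => ∀ l, a (i l) = z l)) j y
        * Real.log (7 * p1 (A.filter (fun a => ∀ l, a (i l) = z l)) j y)
      ≤ 490 * (pr A i z * ((Sᶜ).card * Real.log C2 - Real.log A.card)
        - pr A i z * Real.log (pr A i z)) := by
    intro z
    rw [← Finset.mul_sum]
    set B := A.filter (fun a => ∀ l, a (i l) = z l) with hB
    rcases (pr_nonneg A i z).eq_or_lt with h0 | hp
    · rw [← h0]; simp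
    · have hBne : B.Nonempty := by
        rw [Finset.nonempty_iff_ne_empty]
        intro he
        have : pr A i z = 0 := by
          unfold pr
          rw [← hB, he]; simp
        linarith
      have hM : (0:ℝ) < B.card := by exact_mod_cast hBne.card_pos
      have hBA : B ⊆ A := Finset.filter_subset _ _
      have h2 := oneT A B hA hBA hBne S
        (fun j => if h : ∃ l, i l = j then z h.choose else 0) (by
          intro a ha j hj
          have hj' : ∃ l, i l = j := by simpa [hS] using hj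
          have h1 := (Finset.mem_filter.1 ha).2 hj'.choose
          rw [hj'.choose_spec] at h1
          simp only [dif_pos hj']
          exact Or.inl h1)
      have h3 : (Sᶜ).card * Real.log C2 - Real.log B.card
          = ((Sᶜ).card * Real.log C2 - Real.log A.card) - Real.log (pr A i z) := by
        unfold pr
        rw [← hB, Real.log_div hM.ne' hN.ne']
        ring
      rw [h3] at h2
      have h4 := mul_le_mul_of_nonneg_left h2 hp.le
      refine h4.trans (le_of_eq ?_)
      ring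
  have h5 := Finset.sum_le_sum fun z (_ : z ∈ (Finset.univ : Finset (Fin k → ZMod 7))) => h1 z
  rw [← Finset.mul_sum, Finset.sum_sub_distrib, ← Finset.sum_mul, sum_pr A hne i, one_mul] at h5
  -- the left side
  have h6 : ∑ j ∈ Sᶜ, (kl A (Fin.cons j i) - kl A i)
      = ∑ z, ∑ j ∈ Sᶜ, pr A i z * ∑ y, p1 (A.filter (fun a => ∀ l, a (i l) = z l)) j y
        * Real.log (7 * p1 (A.filter (fun a => ∀ l, a (i l) = z l)) j y) := by
    rw [Finset.sum_comm]
    refine Finset.sum_congr rfl fun j _ => ?_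
    rw [chain]
    ring
  rw [← h6] at h5
  -- entropy of the tuple
  have h7 : - ∑ z, pr A i z * Real.log (pr A i z) = k * Real.log 7 - kl A i := by
    have h8 : kl A i = ∑ z, (pr A i z * (k * Real.log 7) + pr A i z * Real.log (pr A i z)) := by
      unfold kl
      refine Finset.sum_congr rfl fun z _ => ?_
      rcases (pr_nonneg A i z).eq_or_lt with h0 | hp
      · rw [← h0]; simp
      · rw [Real.log_mul (by positivity) hp.ne', Real.log_pow]; ring
    rw [h8, Finset.sum_add_distrib, ← Finset.sum_mul, sum_pr A hne i]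
    ring
  rw [hcard] at h5
  have h9 : Real.log A.card ≤ k * Real.log 7 + ((n - k : ℕ) : ℝ) * Real.log C2 +
      (-(kl A i) - 1/490 * ∑ j ∈ Sᶜ, (kl A (Fin.cons j i) - kl A i)) := by
    linarith
  rw [← Real.exp_log hN]
  refine (Real.exp_le_exp.2 h9).trans (le_of_eq ?_)
  rw [Real.exp_add, Real.exp_add, ← Real.rpow_natCast C2 (n - k), Real.rpow_def_of_pos hC,
    ← Real.rpow_natCast 7 k, Real.rpow_def_of_pos (by norm_num : (0:ℝ) < 7),
    mul_comm (Real.log C2), mul_comm (Real.log 7)]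

end Pool.Agent.H52.Tup
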